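import Pool.Agent.LibPC60.RowDefs
import Pool.Agent.LibEnd77.ValC

/-!
Families of Calabi-Yau hypersurfaces of degree `N` in projective spaces of dimension `N - 1`
(`LibPC60.Fam`), all `N ≥ 3`: the class of the normal bundle, tuples of points on a line, base change
of points.
-/

open scoped Classical
open MvPolynomial

set_option linter.unusedSectionVars false

namespace Pool.Agent.LibPN22

open Pool.Agent.LibBH2 Pool.Agent.LibQC8 Pool.Agent.LibPC60

variable {k J S : Type} [Field k] {c N : ℕ}

/-- The class `N h_0 + β`: the restriction to `X` of the line bundle of which `F` is a section (the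
normal bundle of `X` in the bundle of the linear spaces `Λ = 0`). -/
def NN (X : Fam k J S c N) : Deg S := ((N : ℤ), X.β)

/-- the class `N [p] - ζ` -/
noncomputable def del [Fintype S] {X : Fam k J S c N} (ζ : Cyc X) (p : Pt X k) : CH X :=
  (N : ℚ) • cl (pt p) - cl ζ

/-- `ζ` is the class of all line sections of all fibres -/
def IsZ [Fintype S] (X : Fam k J S c N) (ζ : Cyc X) : Prop :=
  ∀ (y : BPt X k) (p : Fin N → Pt X k),
    (∀ n j, (p n).z (Sum.inr j) = y.y j) → Tri X y.y (fun n i => (p n).z (Sum.inl i)) →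
    ∑ n, cl (pt (p n)) = cl ζ

variable {K : Type} [Field K] [Algebra k K]

/-- An `N`-tuple `u` of points on the line spanned by `e, f` in the fibre over `y`, where `F` does
not vanish on this line. -/
structure TupW (X : Fam k J S c N) (y : J → K) (e f : Fin (c + N) → K) (α β : Fin N → K) (a : K)
    (u : Fin N → Fin (c + N) → K) : Prop where
  ind : LinearIndependent K ![e, f]
  he : ∀ j, aeval (Sum.elim e y) (X.Λ j) = 0
  hf : ∀ j, aeval (Sum.elim f y) (X.Λ j) = 0
  ab : ∀ n, α n ≠ 0 ∨ β n ≠ 0
  hu : ∀ n, u n = α n • e + β n • f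
  hF : ∀ s t : K, aeval (Sum.elim (s • e + t • f) y) X.F = a * ∏ n, (β n * s - α n * t)
  ha : a ≠ 0

/-- `N ([D · Γ]) - deg (D · Γ) ζ = 0` for the curve `Γ` of the `K`-point `u`: the sum over the places
of the order of `D` times the class `N [p] - ζ` of the value `p` is zero. -/
def Van [Fintype S] (X : Fam k J S c N) (ζ : Cyc X) (D : Deg S) (u : Pt X K) : Prop :=
  ∀ (p : Place k K → Pt X k) (l : Place k K → K) (m : Place k K → S → K),
    (∀ v, Sp v u (p v) (l v) (m v)) → ∀ A : Finset (Place k K),
    (∀ v, v.ord (chi (l v) (m v) D) ≠ 0 → v ∈ A) →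
    ∑ v ∈ A, (v.ord (chi (l v) (m v) D) : ℚ) • del ζ (p v) = 0

variable {L : Type} [Field L] [Algebra k L]

theorem aeval_map {σ : Type} (i : K →ₐ[k] L) (z : σ → K) (P : MvPolynomial σ k) :
    aeval (fun a => i (z a)) P = i (aeval z P) := by
  rw [← AlgHom.comp_apply]
  congr 1
  refine MvPolynomial.algHom_ext fun a => ?_
  simp

/-- base change of a point -/
def ptMap {X : Fam k J S c N} (i : K →ₐ[k] L) (u : Pt X K) : Pt X L where
  z := fun a => i (u.z a)
  x_ne := by
    obtain ⟨a, ha⟩ := u.x_ne
    exact ⟨a, by simpa using ha⟩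
  y_ne := fun t => by
    obtain ⟨j, h1, h2⟩ := u.y_ne t
    exact ⟨j, h1, by simpa using h2⟩
  hE := fun e he => by
    have := aeval_map i (fun j => u.z (Sum.inr j)) e
    rw [this, u.hE e he, map_zero]
  hΛ := fun j => by rw [aeval_map, u.hΛ j, map_zero]
  hF := by rw [aeval_map, u.hF, map_zero]

/-- base change of a point of the base -/
def bMap {X : Fam k J S c N} (i : K →ₐ[k] L) (y : BPt X K) : BPt X L where
  y := fun j => i (y.y j)
  y_ne := fun t => by
    obtain ⟨j, h1, h2⟩ := y.y_ne t
    exact ⟨j, h1, by simpa using h2⟩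
  hE := fun e he => by rw [aeval_map, y.hE e he, map_zero]

end Pool.Agent.LibPN22
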