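import Pool.Agent.LibPN22.Defs
import Pool.Agent.LibPC60.B5
import Pool.Agent.LibPC60.B6
import Pool.Agent.LibPC60.B8
import Pool.Agent.LibPC60.B4

/-!
[PN22 A3] facts on `Van`. Plan:
`sum_del`: `div_rel` (PC60 B8) gives `∑ ord_v f • cl (pt (p v)) = 0`, and `∑_{v ∈ A} v.ord f = 0` by `Pool.Agent.LibEnd77.Val8.sum_formula hK f` (see `sum_ord_del`
in LibPC60/Main.lean: copy it with `3` replaced by `N`).
`van_of`: for other data `p', l', m'` and a set `A'`: by `sp_unique` (B5) `pt (p v) = pt (p' v)`, so `del ζ (p v) = del ζ (p' v)`, and the orders agree. The sum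
over `A'` is equal to the sum over `A₀ ∪ A'` (the other terms vanish), and this is zero by hypothesis.
`van_scale`: if `Sp v u p l m` then `Sp v u' p (l / x) m`, and `chi (l / x) m D = chi l m D * x ^ (- D.1)`; so the sum for `u'` is the sum for `u` minus `D.1`
times `∑ ord_v(x) • del ζ (p v) = 0` (`sum_del`). Use `van_of` for `u'` and `finite_ord` (B6) for the finite sets. (`Sp` data for `u` exist at every place:
`exists_sp`, B4.)
`van_of_bad`: every term is zero.
-/

open scoped Classical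
open MvPolynomial

set_option linter.unusedSectionVars false

namespace Pool.Agent.LibPN22

open Pool.Agent.LibBH2 Pool.Agent.LibQC8 Pool.Agent.LibPC60

variable {k J S : Type} [Field k] [IsAlgClosed k] {c N : ℕ} [Fintype J] [Fintype S]
  {K : Type} [Field K] [Algebra k K]

/-- [A3a] -/
theorem sum_del (X : Fam k J S c N) (hK : IsFunctionField k K) (ζ : Cyc X) (u : Pt X K)
    (p : Place k K → Pt X k) (h : ∀ v, ∃ l m, Sp v u (p v) l m) (f : K) (hf : f ≠ 0)
    (A : Finset (Place k K)) (hA : ∀ v, v.ord f ≠ 0 → v ∈ A) :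
    ∑ v ∈ A, (v.ord f : ℚ) • del ζ (p v) = 0 := by
  have h1 := div_rel X hK u p h f hf A hA
  have h2 : ∑ v ∈ A, (v.ord f : ℚ) = 0 := by
    obtain ⟨h3, h4⟩ := Pool.Agent.LibEnd77.Val8.sum_formula hK f
    rw [finsum_eq_sum_of_support_subset _ (s := A) (by
      intro v hv
      exact hA v hv)] at h4
    exact_mod_cast h4
  unfold del
  simp_rw [smul_sub, Finset.sum_sub_distrib, ← Finset.sum_smul, h2, zero_smul, sub_zero]
  have h5 : ∀ v, (v.ord f : ℚ) • (N : ℚ) • cl (pt (p v)) = (N : ℚ) • ((v.ord f : ℚ) • cl (pt (p v))) :=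
    fun v => smul_comm _ _ _
  simp_rw [h5, ← Finset.smul_sum, h1, smul_zero]

/-- [A3b] -/
theorem van_of (X : Fam k J S c N) (hK : IsFunctionField k K) (ζ : Cyc X) (D : Deg S) (u : Pt X K)
    (p : Place k K → Pt X k) (l : Place k K → K) (m : Place k K → S → K)
    (h : ∀ v, Sp v u (p v) (l v) (m v)) (A₀ : Finset (Place k K))
    (h0 : ∀ A, A₀ ⊆ A → ∑ v ∈ A, (v.ord (chi (l v) (m v) D) : ℚ) • del ζ (p v) = 0) :
    Van X ζ D u := by
  intro p' l' m' h' A' hA'
  have h1 := h0 (A₀ ∪ A') Finset.subset_union_left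
  rw [← h1]
  have h2 : ∀ v, (v.ord (chi (l v) (m v) D) : ℚ) • del ζ (p v) =
      (v.ord (chi (l' v) (m' v) D) : ℚ) • del ζ (p' v) := by
    intro v
    obtain ⟨h3, h4⟩ := sp_unique X v u (h v) (h' v)
    rw [h4 D, del, del, h3]
  simp_rw [h2]
  refine Finset.sum_subset Finset.subset_union_right ?_
  intro v _ hv
  have h3 : v.ord (chi (l' v) (m' v) D) = 0 := by
    by_contra hne
    exact hv (hA' v hne)
  rw [h3, Int.cast_zero, zero_smul]

/-- [A3c] -/
theorem van_scale (X : Fam k J S c N) (hK : IsFunctionField k K) (ζ : Cyc X) (D : Deg S)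
    (u u' : Pt X K) (x : K) (hx : x ≠ 0) (h1 : ∀ i, u'.z (Sum.inl i) = x * u.z (Sum.inl i))
    (h2 : ∀ j, u'.z (Sum.inr j) = u.z (Sum.inr j)) (h : Van X ζ D u) : Van X ζ D u' := by
  choose p l m hs using fun v => exists_sp X hK v u
  have hs' : ∀ v, Sp v u' (p v) (l v / x) (m v) := by
    intro v
    refine ⟨div_ne_zero (hs v).l_ne hx, (hs v).m_ne, ?_⟩
    rintro (i | j)
    · have h3 := (hs v).val (Sum.inl i)
      rw [chi_wt_inl] at h3
      rw [chi_wt_inl, h1 i]
      have h4 : l v / x * chi 1 (m v) (wt X.fac X.α (Sum.inl i)) * (x * u.z (Sum.inl i)) =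
          l v * chi 1 (m v) (wt X.fac X.α (Sum.inl i)) * u.z (Sum.inl i) := by
        field_simp
      rw [h4]
      exact h3
    · have h3 := (hs v).val (Sum.inr j)
      rw [chi_wt_inr] at h3
      rw [chi_wt_inr, h2 j]
      exact h3
  have hf1 := finite_ord X hK u p l m hs D
  have hf2 := (Pool.Agent.LibEnd77.Val8.sum_formula hK x).1
  refine van_of X hK ζ D u' p (fun v => l v / x) m hs' (hf1.toFinset ∪ hf2.toFinset) ?_
  intro A hA
  have e1 := h p l m hs A (fun v hv => hA (by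
    rw [Finset.mem_union, Set.Finite.mem_toFinset]
    exact Or.inl hv))
  have e2 := sum_del X hK ζ u p (fun v => ⟨_, _, hs v⟩) x hx A (fun v hv => hA (by
    rw [Finset.mem_union, Set.Finite.mem_toFinset, Set.Finite.mem_toFinset]
    exact Or.inr hv))
  have e3 : ∀ v, (v.ord (chi (l v / x) (m v) D) : ℚ) • del ζ (p v) =
      (v.ord (chi (l v) (m v) D) : ℚ) • del ζ (p v) - (D.1 : ℚ) • ((v.ord x : ℚ) • del ζ (p v)) := by
    intro v
    rw [ord_chi v (l v / x) (m v) (div_ne_zero (hs v).l_ne hx) (hs v).m_ne,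
      ord_chi v (l v) (m v) (hs v).l_ne (hs v).m_ne, Place.ord_div v _ _ (hs v).l_ne hx, smul_smul, ← sub_smul]
    congr 1
    push_cast
    ring
  simp_rw [e3]
  rw [Finset.sum_sub_distrib, ← Finset.smul_sum, e1, e2, smul_zero, sub_zero]

end Pool.Agent.LibPN22
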