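import Pool.Agent.LibPN22.B1
import Pool.Agent.LibPN22.A3
import Pool.Agent.LibPC60.B4
import Pool.Agent.LibPC60.B6

/-!
[PN22 B2] values in an extension, and descent of `Van`. Plan:
`sp_map`: `w.Zer (i x) ↔ v.Zer x` as `e > 0`; `i` commutes with `chi` (`map_mul`, `map_zpow₀`, `map_prod`) and with `algebraMap`. `van_descend`:
take `n, ρ, e` from `places_above`. Given data `p, l, m` for `u` and `A`: for every place `w` of `L`
`Sp w (ptMap i u) (p (ρ w)) (i (l (ρ w))) (fun t => i (m (ρ w) t))`: `w.Zer (i x) ↔ (ρ w).Zer x` as `e w > 0`; `i` commutes with `chi` (`map_mul`, `map_zpow₀`,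
`map_prod`) and with `algebraMap`. Let `A'` be the union over `v ∈ A` of the sets `W` of the places over `v`. `Van` for `ptMap i u` gives
`0 = ∑_{w ∈ A'} e w * (ρ w).ord(..) • del ζ (p (ρ w)) = ∑_{v ∈ A} (∑_{w over v} e w) ord(..) • del ζ (p v) = n • ∑_{v ∈ A} ...`, `n ≠ 0`, a `ℚ`-vector space.
(`Finset.sum_biUnion` or `Finset.sum_fiberwise_of_maps_to`.)
-/

open scoped Classical
open MvPolynomial

set_option linter.unusedSectionVars false

namespace Pool.Agent.LibPN22

open Pool.Agent.LibBH2 Pool.Agent.LibQC8 Pool.Agent.LibPC60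

variable {k J S : Type} [Field k] [IsAlgClosed k] {c N : ℕ} [Fintype J] [Fintype S]
  {K : Type} [Field K] [Algebra k K]

private theorem b2_chi {L : Type} [Field L] [Algebra k L] (i : K →ₐ[k] L) (l : K) (m : S → K)
    (D : Deg S) : i (chi l m D) = chi (i l) (fun t => i (m t)) D := by
  unfold chi
  rw [map_mul, map_zpow₀, map_prod]
  congr 1
  refine Finset.prod_congr rfl fun t _ => ?_
  rw [map_zpow₀]

/-- [B2a] values in an extension -/
theorem sp_map {L : Type} [Field L] [Algebra k L] (X : Fam k J S c N) (i : K →ₐ[k] L)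
    (w : Place k L) (v : Place k K) (e : ℤ) (he : 0 < e) (h : ∀ x, w.ord (i x) = e * v.ord x)
    (u : Pt X K) (p : Pt X k) (l : K) (m : S → K) (hs : Sp v u p l m) :
    Sp w (ptMap i u) p (i l) (fun t => i (m t)) := by
  refine ⟨?_, ?_, ?_⟩
  · exact (map_ne_zero i).2 hs.l_ne
  · intro t
    exact (map_ne_zero i).2 (hs.m_ne t)
  · intro a
    have h1 := hs.val a
    have h2 : chi (i l) (fun t => i (m t)) (wt X.fac X.α a) * (ptMap i u).z a -
        algebraMap k L (p.z a) = i (chi l m (wt X.fac X.α a) * u.z a - algebraMap k K (p.z a)) := by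
      rw [map_sub, map_mul, b2_chi, AlgHom.commutes]
      rfl
    rw [h2]
    rcases h1 with h1 | h1
    · left
      rw [h1, map_zero]
    · right
      rw [h]
      exact mul_pos he h1

/-- [B2] descent of `Van` from an extension -/
theorem van_descend [CharZero k] {L : Type} [Field L] [Algebra k L] (X : Fam k J S c N)
    (hK : IsFunctionField k K) (hL : IsFunctionField k L) (i : K →ₐ[k] L) (ζ : Cyc X) (D : Deg S)
    (u : Pt X K) (h : Van X ζ D (ptMap i u)) : Van X ζ D u := by
  intro p l m hs A hA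
  obtain ⟨n, ρ, e, hn, he, hord, hW⟩ := places_above hK hL i
  choose W hW1 hW2 using hW
  have hordc : ∀ w : Place k L, w.ord (chi (i (l (ρ w))) (fun t => i (m (ρ w) t)) D) =
      e w * (ρ w).ord (chi (l (ρ w)) (m (ρ w)) D) := by
    intro w
    rw [← b2_chi, hord]
  have h1 := h (fun w => p (ρ w)) (fun w => i (l (ρ w))) (fun w t => i (m (ρ w) t))
    (fun w => sp_map X i w (ρ w) (e w) (he w) (hord w) u _ _ _ (hs (ρ w))) (A.biUnion W) (by
      intro w hw
      rw [hordc w] at hw
      have h2 : (ρ w).ord (chi (l (ρ w)) (m (ρ w)) D) ≠ 0 := fun h3 => hw (by rw [h3, mul_zero])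
      exact Finset.mem_biUnion.2 ⟨ρ w, hA _ h2, (hW1 _ w).2 rfl⟩)
  rw [Finset.sum_biUnion (by
    intro v _ v' _ hvv
    rw [Function.onFun, Finset.disjoint_left]
    intro w hw hw'
    exact hvv (((hW1 v w).1 hw).symm.trans ((hW1 v' w).1 hw')))] at h1
  have h2 : ∀ v ∈ A, ∑ w ∈ W v, ((w.ord (chi (i (l (ρ w))) (fun t => i (m (ρ w) t)) D) : ℤ) : ℚ) •
      del ζ (p (ρ w)) = (n : ℚ) • ((v.ord (chi (l v) (m v) D) : ℚ) • del ζ (p v)) := by
    intro v _
    have h3 : ∀ w ∈ W v, ((w.ord (chi (i (l (ρ w))) (fun t => i (m (ρ w) t)) D) : ℤ) : ℚ) •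
        del ζ (p (ρ w)) = (e w : ℚ) • ((v.ord (chi (l v) (m v) D) : ℚ) • del ζ (p v)) := by
      intro w hw
      have h4 : ρ w = v := (hW1 v w).1 hw
      rw [hordc w, h4]
      push_cast
      rw [mul_smul]
    rw [Finset.sum_congr rfl h3, ← Finset.sum_smul]
    congr 1
    have h5 := hW2 v
    exact_mod_cast h5
  rw [Finset.sum_congr rfl h2, ← Finset.smul_sum] at h1
  rcases smul_eq_zero.1 h1 with h3 | h3
  · exfalso
    have : (n : ℚ) ≠ 0 := by exact_mod_cast hn.ne'
    exact this h3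
  · exact h3

end Pool.Agent.LibPN22
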