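import Pool.Agent.LibPN22.Defs

/-!
[PN22 C3] finitely many elements of the algebraic closure of a function field lie in a function field. Plan:
`L = IntermediateField.adjoin K (Set.range x)` in `AlgebraicClosure K`, finite over `K` (`IntermediateField.finiteDimensional_adjoin`), `k`-algebra structure
`k → K → L`, `φ` the inclusion. `IsFunctionField k L` as in the row C16 of PC60: /team-store/PC60_C16.lean (copy the tower argument as a private lemma).
-/

open scoped Classical
open MvPolynomial

set_option linter.unusedSectionVars false

namespace Pool.Agent.LibPN22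

open Pool.Agent.LibBH2 Pool.Agent.LibQC8 Pool.Agent.LibPC60

variable {k J S : Type} [Field k] [IsAlgClosed k] {c N : ℕ} [Fintype J] [Fintype S]
  {K : Type} [Field K] [Algebra k K]

private theorem C3_ff (hK : IsFunctionField k K) (L : Type) [Field L] [Algebra k L]
    [Algebra K L] [IsScalarTower k K L] [FiniteDimensional K L] : IsFunctionField k L := by
  obtain ⟨s, hs, hfin⟩ := hK
  refine ⟨algebraMap K L s, ?_, ?_⟩
  · intro h
    exact hs ((isAlgebraic_algebraMap_iff (algebraMap K L).injective).1 h)
  · have hmem : ∀ x : IntermediateField.adjoin k {s},
        algebraMap K L x ∈ IntermediateField.adjoin k {algebraMap K L s} := by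
      intro x
      have h1 : (IsScalarTower.toAlgHom k K L) x ∈
          (IntermediateField.adjoin k {s}).map (IsScalarTower.toAlgHom k K L) :=
        ⟨x, x.2, rfl⟩
      rw [IntermediateField.adjoin_map, Set.image_singleton] at h1
      exact h1
    let φ : IntermediateField.adjoin k {s} →+* IntermediateField.adjoin k {algebraMap K L s} :=
      RingHom.codRestrict ((algebraMap K L).comp (algebraMap (IntermediateField.adjoin k {s}) K))
        (IntermediateField.adjoin k {algebraMap K L s}) hmem
    letI : Algebra (IntermediateField.adjoin k {s})
      (IntermediateField.adjoin k {algebraMap K L s}) := φ.toAlgebra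
    haveI : FiniteDimensional (IntermediateField.adjoin k {s}) L :=
      FiniteDimensional.trans (IntermediateField.adjoin k {s}) K L
    haveI : IsScalarTower (IntermediateField.adjoin k {s})
        (IntermediateField.adjoin k {algebraMap K L s}) L :=
      IsScalarTower.of_algebraMap_eq fun _ => rfl
    exact Module.Finite.of_restrictScalars_finite (IntermediateField.adjoin k {s}) _ _

/-- [C3] finitely many elements of the algebraic closure of a function field -/
theorem exists_sub (hK : IsFunctionField k K) {ι : Type} [Finite ι] (x : ι → AlgebraicClosure K) :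
    ∃ (L : Type) (_ : Field L) (_ : Algebra k L) (i : K →ₐ[k] L) (φ : L →ₐ[k] AlgebraicClosure K)
      (x' : ι → L), IsFunctionField k L ∧ (∀ a, φ (i a) = algebraMap K (AlgebraicClosure K) a) ∧
      ∀ a, φ (x' a) = x a := by
  let L : IntermediateField K (AlgebraicClosure K) := IntermediateField.adjoin K (Set.range x)
  haveI : Finite ↑(Set.range x) := (Set.finite_range x).to_subtype
  haveI hfin : FiniteDimensional K L :=
    IntermediateField.finiteDimensional_adjoin fun x _ => Algebra.IsIntegral.isIntegral x
  have hx : ∀ n, x n ∈ L := fun n => IntermediateField.subset_adjoin K _ ⟨n, rfl⟩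
  refine ⟨L, inferInstance, inferInstance, IsScalarTower.toAlgHom k K L,
    L.val.restrictScalars k, fun n => ⟨x n, hx n⟩, C3_ff hK L, fun a => ?_, fun a => rfl⟩
  rfl

end Pool.Agent.LibPN22
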