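import Pool.Agent.LibPC60.RowDefs

/-!
[PN22 D4] the fibre over a point as a family over a point. Plan:
define `fib X y` as below (`toF` substitutes the base coordinates). `homΛ`, `homF`: if `P` is weighted homogeneous of degree `D` for `wt X.fac X.α` then `toF y P` is weighted homogeneous of degree
`(D.1, 0)` (any function on `Empty`) for the weights `(1, 0)`: `P` is a sum of monomials `a ∏ x_i^(d i) ∏ y_j^(d j)` with `∑ d i = D.1`; `toF` of it is a constant times `∏ x_i^(d i)`.
`aeval_toF`: both sides are algebra maps in `P`, compare on the generators.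
-/

open scoped Classical
open MvPolynomial

set_option linter.unusedSectionVars false

namespace Pool.Agent.LibPN22

open Pool.Agent.LibBH2 Pool.Agent.LibQC8 Pool.Agent.LibPC60

variable {k J S : Type} [Field k] {c N : ℕ}
  {K : Type} [Field K] [Algebra k K]

/-- substitution of the base coordinates -/
noncomputable def toF {Ω : Type} [Field Ω] [Algebra k Ω] (y : J → Ω) :
    MvPolynomial (Fin (c + N) ⊕ J) k →ₐ[k] MvPolynomial (Fin (c + N) ⊕ Empty) Ω :=
  aeval (Sum.elim (fun i => X (Sum.inl i)) (fun j => C (y j)))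

theorem toF_hom {Ω : Type} [Field Ω] [Algebra k Ω] (X : Fam k J S c N) (y : J → Ω)
    (P : MvPolynomial (Fin (c + N) ⊕ J) k) (D : Deg S)
    (h : IsWeightedHomogeneous (wt X.fac X.α) P D) :
    IsWeightedHomogeneous (wt (Empty.elim : Empty → Empty) (fun (_ : Fin (c + N)) _ => (0 : ℤ)))
      (toF y P) ((D.1, fun _ => 0) : Deg Empty) := by
  unfold toF
  rw [aeval_def, eval₂_eq]
  refine Submodule.sum_mem (weightedHomogeneousSubmodule Ω
    (wt (Empty.elim : Empty → Empty) (fun (_ : Fin (c + N)) _ => (0 : ℤ)))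
    ((D.1, fun _ => 0) : Deg Empty)) fun m hm => ?_
  have hw : Finsupp.weight (wt X.fac X.α) m = D := h (mem_support_iff.1 hm)
  have h1 : IsWeightedHomogeneous
      (wt (Empty.elim : Empty → Empty) (fun (_ : Fin (c + N)) _ => (0 : ℤ)))
      (algebraMap k (MvPolynomial (Fin (c + N) ⊕ Empty) Ω) (coeff m P)) (0 : Deg Empty) :=
    isWeightedHomogeneous_C _ _
  have h2 : ∀ i ∈ m.support, IsWeightedHomogeneous
      (wt (Empty.elim : Empty → Empty) (fun (_ : Fin (c + N)) _ => (0 : ℤ)))
      ((Sum.elim (fun i => MvPolynomial.X (Sum.inl i)) (fun j => C (y j)) :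
        Fin (c + N) ⊕ J → MvPolynomial (Fin (c + N) ⊕ Empty) Ω) i ^ m i)
      (m i • (((wt X.fac X.α i).1, fun _ => 0) : Deg Empty)) := by
    intro i _
    refine IsWeightedHomogeneous.pow ?_ (m i)
    rcases i with i | j
    · have h3 := isWeightedHomogeneous_X Ω
        (wt (Empty.elim : Empty → Empty) (fun (_ : Fin (c + N)) _ => (0 : ℤ))) (Sum.inl i)
      have e : (((wt X.fac X.α (Sum.inl i)).1, fun _ => 0) : Deg Empty) =
          wt (Empty.elim : Empty → Empty) (fun (_ : Fin (c + N)) _ => (0 : ℤ)) (Sum.inl i) :=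
        Prod.ext rfl (Subsingleton.elim _ _)
      rw [e]
      exact h3
    · have h3 := isWeightedHomogeneous_C
        (wt (Empty.elim : Empty → Empty) (fun (_ : Fin (c + N)) _ => (0 : ℤ))) (y j)
      have e : (((wt X.fac X.α (Sum.inr j)).1, fun _ => 0) : Deg Empty) = 0 :=
        Prod.ext rfl (Subsingleton.elim _ _)
      rw [e]
      exact h3
  have h4 := h1.mul (IsWeightedHomogeneous.prod m.support _ _ h2)
  have h5 : (0 : Deg Empty) + ∑ i ∈ m.support,
      m i • (((wt X.fac X.α i).1, fun _ => 0) : Deg Empty) = (D.1, fun _ => 0) := by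
    rw [zero_add]
    refine Prod.ext ?_ (Subsingleton.elim _ _)
    rw [← hw, Finsupp.weight_apply, Finsupp.sum, Prod.fst_sum, Prod.fst_sum]
    rfl
  rw [h5] at h4
  exact h4

/-- the fibre over `y` -/
noncomputable def fib {Ω : Type} [Field Ω] [Algebra k Ω] (X : Fam k J S c N) (y : J → Ω) :
    Fam Ω Empty Empty c N where
  fac := Empty.elim
  α := fun _ _ => 0
  γ := fun _ _ => 0
  β := fun _ => 0
  E := ∅
  Λ := fun j => toF y (X.Λ j)
  F := toF y X.F
  homE := fun e he => absurd he (Set.notMem_empty e)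
  homΛ := fun j => toF_hom X y _ _ (X.homΛ j)
  homF := toF_hom X y _ _ X.homF

theorem aeval_toF {Ω : Type} [Field Ω] [Algebra k Ω] (y : J → Ω) (x : Fin (c + N) → Ω)
    (y' : Empty → Ω) (P : MvPolynomial (Fin (c + N) ⊕ J) k) :
    aeval (Sum.elim x y') (toF y P) = aeval (Sum.elim x y) P := by
  have h : (((aeval (Sum.elim x y') : MvPolynomial (Fin (c + N) ⊕ Empty) Ω →ₐ[Ω] Ω).restrictScalars
      k).comp (toF y)) = (aeval (Sum.elim x y) : MvPolynomial (Fin (c + N) ⊕ J) k →ₐ[k] Ω) := by
    refine algHom_ext fun i => ?_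
    rcases i with i | j
    · simp [toF]
    · simp [toF]
  exact DFunLike.congr_fun h P

end Pool.Agent.LibPN22
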