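import Pool.Agent.LibPN22.D3
import Pool.Agent.LibPN22.D4
import Pool.Agent.LibPN22.C3
import Pool.Agent.LibPC60.D9

/-!
[PN22 D5] every fibre over a point of a function field contains, after a finite extension, a point with a line of contact `N`. Plan:
`Ω = AlgebraicClosure K`, `y' j = algebraMap K Ω (y.y j)`. `exists_flex_const` (D3) for `fib X y'` (D4) over the algebraically closed field `Ω` and the unique point of its base (`⟨Empty.elim, ..⟩`; `y_ne` is over
`Empty`, `hE` is over the empty set) gives `x ≠ 0` with `Tri (fib X y') _ (fun _ => x)`, i.e. `Tri X y' (fun _ => x)` by `aeval_toF`. `exists_sub` (C3) for the coordinates of `x`, of the two basis vectors `e, f`, and for `α n`, `β n`, `a`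
gives `L`; the relations descend (`φ` is an injective `k`-algebra map; `aeval_map`; for independence: a relation over `L` maps to one over `Ω`; the identity for `s t : L` maps to the one over `Ω`). The point `t` has the fibre
coordinates `x'` and the base coordinates `i (y.y j)`; `F(x') = 0` and `Λ_j(x') = 0`: `pt_of_triW` (PC60 D9) for the constant tuple and `bMap i y`.
-/

open scoped Classical
open MvPolynomial

set_option linter.unusedSectionVars false

namespace Pool.Agent.LibPN22

open Pool.Agent.LibBH2 Pool.Agent.LibQC8 Pool.Agent.LibPC60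

variable {k J S : Type} [Field k] [IsAlgClosed k] {c N : ℕ} [Fintype J] [Fintype S]
  {K : Type} [Field K] [Algebra k K]

/-- [D5] points with a line of contact `N` over a finite extension -/
theorem exists_flex (X : Fam k J S c N) (hN : 3 ≤ N) (hK : IsFunctionField k K) (y : BPt X K) :
    ∃ (L : Type) (_ : Field L) (_ : Algebra k L) (i : K →ₐ[k] L) (t : Pt X L),
      IsFunctionField k L ∧ (∀ j, t.z (Sum.inr j) = i (y.y j)) ∧
      Tri X (fun j => i (y.y j)) (fun _ r => t.z (Sum.inl r)) := by
  let y' : J → AlgebraicClosure K := fun j => algebraMap K (AlgebraicClosure K) (y.y j)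
  let b0 : BPt (fib X y') (AlgebraicClosure K) :=
    ⟨Empty.elim, fun t => t.elim, fun e he => absurd he (Set.notMem_empty e)⟩
  obtain ⟨x, hx0, e, f, hind, hΛe, hΛf, α, β, a, hαβ, hF⟩ := exists_flex_const (fib X y') hN b0
  have hΛe' : ∀ j, aeval (Sum.elim e y') (X.Λ j) = 0 := by
    intro j
    rw [← aeval_toF y' e b0.y (X.Λ j)]
    exact hΛe j
  have hΛf' : ∀ j, aeval (Sum.elim f y') (X.Λ j) = 0 := by
    intro j
    rw [← aeval_toF y' f b0.y (X.Λ j)]
    exact hΛf j
  have hF' : ∀ s t : AlgebraicClosure K, aeval (Sum.elim (s • e + t • f) y') X.F =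
      a * ∏ n, (β n * s - α n * t) := by
    intro s t
    rw [← aeval_toF y' (s • e + t • f) b0.y X.F]
    exact hF s t
  obtain ⟨L, _, _, i, φ, z, hL, hφi, hφz⟩ := exists_sub (k := k) hK
    (Sum.elim (fun p : Fin 3 × Fin (c + N) => (![x, e, f] : Fin 3 → _) p.1 p.2)
      (Sum.elim (fun p : Fin 2 × Fin N => (![α, β] : Fin 2 → _) p.1 p.2) (fun _ : Unit => a)))
  have hinj : Function.Injective φ := (φ : L →+* AlgebraicClosure K).injective
  let x' : Fin (c + N) → L := fun r => z (Sum.inl (0, r))
  let e' : Fin (c + N) → L := fun r => z (Sum.inl (1, r))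
  let f' : Fin (c + N) → L := fun r => z (Sum.inl (2, r))
  let α' : Fin N → L := fun n => z (Sum.inr (Sum.inl (0, n)))
  let β' : Fin N → L := fun n => z (Sum.inr (Sum.inl (1, n)))
  let a' : L := z (Sum.inr (Sum.inr ()))
  have hx' : ∀ r, φ (x' r) = x r := fun r => hφz (Sum.inl (0, r))
  have he' : ∀ r, φ (e' r) = e r := fun r => hφz (Sum.inl (1, r))
  have hf' : ∀ r, φ (f' r) = f r := fun r => hφz (Sum.inl (2, r))
  have hα' : ∀ n, φ (α' n) = α n := fun n => hφz (Sum.inr (Sum.inl (0, n)))
  have hβ' : ∀ n, φ (β' n) = β n := fun n => hφz (Sum.inr (Sum.inl (1, n)))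
  have ha' : φ a' = a := hφz (Sum.inr (Sum.inr ()))
  have hae : ∀ (w' : Fin (c + N) → L) (w : Fin (c + N) → AlgebraicClosure K),
      (∀ r, φ (w' r) = w r) → ∀ P : MvPolynomial (Fin (c + N) ⊕ J) k,
      φ (aeval (Sum.elim w' fun j => i (y.y j)) P) = aeval (Sum.elim w y') P := by
    intro w' w hw P
    rw [← aeval_map φ]
    have h1 : (fun b => φ ((Sum.elim w' fun j => i (y.y j)) b)) = Sum.elim w y' := by
      funext b
      rcases b with r | j
      · exact hw r
      · exact hφi (y.y j)
    rw [h1]
  have hW : TriW X (bMap i y).y e' f' (fun _ : Fin N => x') := by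
    refine ⟨?_, ?_, ?_, α', β', a', ?_, ?_⟩
    · rw [LinearIndependent.pair_iff]
      intro s t hst
      have h1 : φ s • e + φ t • f = 0 := by
        funext r
        have h2 := congrArg φ (congrFun hst r)
        simp only [Pi.add_apply, Pi.smul_apply, smul_eq_mul, map_add, map_mul, Pi.zero_apply,
          map_zero] at h2
        rw [he', hf'] at h2
        simpa using h2
      obtain ⟨h2, h3⟩ := (LinearIndependent.pair_iff.1 hind) _ _ h1
      exact ⟨hinj (by rw [h2, map_zero]), hinj (by rw [h3, map_zero])⟩
    · intro j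
      apply hinj
      rw [map_zero]
      exact (hae e' e he' (X.Λ j)).trans (hΛe' j)
    · intro j
      apply hinj
      rw [map_zero]
      exact (hae f' f hf' (X.Λ j)).trans (hΛf' j)
    · intro n
      refine ⟨?_, ?_⟩
      · rcases (hαβ n).1 with h1 | h1
        · left
          intro h2
          apply h1
          rw [← hα', h2, map_zero]
        · right
          intro h2
          apply h1
          rw [← hβ', h2, map_zero]
      · funext r
        apply hinj
        have h1 := congrFun (hαβ n).2 r
        simp only [Pi.add_apply, Pi.smul_apply, smul_eq_mul, map_add, map_mul] at h1 ⊢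
        rw [hx', hα', hβ', he', hf']
        exact h1
    · intro s t
      apply hinj
      have h1 : ∀ r, φ ((s • e' + t • f') r) = (φ s • e + φ t • f) r := by
        intro r
        simp only [Pi.add_apply, Pi.smul_apply, smul_eq_mul, map_add, map_mul]
        rw [he', hf']
      have h2 := (hae (s • e' + t • f') (φ s • e + φ t • f) h1 X.F).trans (hF' (φ s) (φ t))
      rw [map_mul, map_prod, ha']
      refine h2.trans ?_
      congr 1
      apply Finset.prod_congr rfl
      intro n _
      rw [map_sub, map_mul, map_mul, hα', hβ']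
  obtain ⟨u, hu1, hu2⟩ := pt_of_triW X (bMap i y) e' f' (fun _ => x') hW
  refine ⟨L, _, _, i, u ⟨0, by omega⟩, hL, fun j => hu2 _ j, e', f', ?_⟩
  have h1 : (fun (_ : Fin N) r => (u ⟨0, by omega⟩).z (Sum.inl r)) = fun _ : Fin N => x' := by
    funext n r
    exact hu1 _ r
  rw [h1]
  exact hW

end Pool.Agent.LibPN22
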