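import Pool.Agent.LibPN22.Defs
import Pool.Agent.LibPC60.C4
import Pool.Agent.LibPC60.C5
import Pool.Agent.LibPC60.C16
import Pool.Agent.LibPC60.D9

/-!
[PN22 E1] the line through two points of a fibre. Plan:
`e`, `f` the fibre coordinates of `u`, `t`. `binary_form` (PC60 C5) gives `a n` with `F(s e + t f) = ∑ a n s^(N-n) t^n`; `exists_split` (C16) gives `L, i, α, β, b` with
`∑ i (a n) s^(N-n) t^n = b ∏ (β n s - α n t)`. If `b = 0`: `F` vanishes on the line over `L`: left alternative. Otherwise `TupW` with `i ∘ e`, `i ∘ f` (independent: a relation over `L`, some `2 × 2` minor of `e, f`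
is nonzero), `u' n = α n • i e + β n • i f`, points `w n` (nonzero, `Λ_j = 0` by `lam_lin`, `F = b ∏_m (β m α n - α m β n) = 0`). `F(u) = 0`: put `s = 1, t = 0`: `b ∏ β n = 0`, so `β n₁ = 0` for some `n₁` and
`w n₁ = α n₁ • i e`, `α n₁ ≠ 0`. The same with `s = 0, t = 1` for `t`. (`aeval` commutes with `i`: `aeval_map`.)
-/

open scoped Classical
open MvPolynomial

set_option linter.unusedSectionVars false

namespace Pool.Agent.LibPN22

open Pool.Agent.LibBH2 Pool.Agent.LibQC8 Pool.Agent.LibPC60

variable {k J S : Type} [Field k] [IsAlgClosed k] {c N : ℕ} [Fintype J] [Fintype S]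
  {K : Type} [Field K] [Algebra k K]

/-- two independent vectors have a nonzero minor -/
private theorem exists_minor {F : Type} [Field F] {m : ℕ} (e f : Fin m → F)
    (h : LinearIndependent F ![e, f]) : ∃ p q, e p * f q - e q * f p ≠ 0 := by
  rw [LinearIndependent.pair_iff] at h
  by_contra hc
  push Not at hc
  have he : ∃ p, e p ≠ 0 := by
    by_contra h0
    push Not at h0
    have := (h 1 0 (by ext r; simp [h0 r])).1
    exact one_ne_zero this
  obtain ⟨p, hp⟩ := he
  have := (h (-(f p)) (e p) (by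
    ext q
    have := hc p q
    simp only [Pi.add_apply, Pi.smul_apply, smul_eq_mul, Pi.zero_apply]
    linear_combination this)).2
  exact hp this

/-- independence is preserved by a field extension -/
private theorem indep_map {F E : Type} [Field F] [Field E] {m : ℕ} (i : F →+* E) (e f : Fin m → F)
    (h : LinearIndependent F ![e, f]) :
    LinearIndependent E ![fun r => i (e r), fun r => i (f r)] := by
  obtain ⟨p, q, hpq⟩ := exists_minor e f h
  have hne : i (e p) * i (f q) - i (e q) * i (f p) ≠ 0 := by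
    rw [← map_mul, ← map_mul, ← map_sub]
    exact (map_ne_zero i).mpr hpq
  rw [LinearIndependent.pair_iff]
  intro x x' hx
  have h1 := congrFun hx p
  have h2 := congrFun hx q
  simp only [Pi.add_apply, Pi.smul_apply, smul_eq_mul, Pi.zero_apply] at h1 h2
  constructor
  · have : x * (i (e p) * i (f q) - i (e q) * i (f p)) = 0 := by
      linear_combination i (f q) * h1 - i (f p) * h2
    exact (mul_eq_zero.mp this).resolve_right hne
  · have : x' * (i (e p) * i (f q) - i (e q) * i (f p)) = 0 := by
      linear_combination i (e p) * h2 - i (e q) * h1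
    exact (mul_eq_zero.mp this).resolve_right hne

/-- a nontrivial combination of independent vectors has a nonzero coordinate -/
private theorem comb_ne {F : Type} [Field F] {m : ℕ} (e f : Fin m → F)
    (h : LinearIndependent F ![e, f]) (x x' : F) (hx : x ≠ 0 ∨ x' ≠ 0) :
    ∃ r, (x • e + x' • f) r ≠ 0 := by
  by_contra hc
  push Not at hc
  rw [LinearIndependent.pair_iff] at h
  obtain ⟨h1, h2⟩ := h x x' (funext hc)
  rcases hx with hx | hx
  · exact hx h1
  · exact hx h2

/-- [E1] the line through two points of a fibre -/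
theorem through (X : Fam k J S c N) (hK : IsFunctionField k K) (u t : Pt X K)
    (hb : ∀ j, t.z (Sum.inr j) = u.z (Sum.inr j))
    (hi : LinearIndependent K ![fun r => u.z (Sum.inl r), fun r => t.z (Sum.inl r)]) :
    ∃ (L : Type) (_ : Field L) (_ : Algebra k L) (i : K →ₐ[k] L), IsFunctionField k L ∧
      ((∀ x x' : L, aeval (Sum.elim (x • (fun r => i (u.z (Sum.inl r))) +
          x' • (fun r => i (t.z (Sum.inl r)))) (fun j => i (u.z (Sum.inr j)))) X.F = 0) ∨
        ∃ (w : Fin N → Pt X L) (e f : Fin (c + N) → L) (α β : Fin N → L) (a : L)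
          (n₁ n₂ : Fin N) (x₁ x₂ : L), x₁ ≠ 0 ∧ x₂ ≠ 0 ∧
          (∀ n j, (w n).z (Sum.inr j) = i (u.z (Sum.inr j))) ∧
          TupW X (fun j => i (u.z (Sum.inr j))) e f α β a (fun n r => (w n).z (Sum.inl r)) ∧
          (∀ r, (w n₁).z (Sum.inl r) = x₁ * i (u.z (Sum.inl r))) ∧
          ∀ r, (w n₂).z (Sum.inl r) = x₂ * i (t.z (Sum.inl r))) := by
  classical
  set e0 : Fin (c + N) → K := fun r => u.z (Sum.inl r) with he0
  set f0 : Fin (c + N) → K := fun r => t.z (Sum.inl r) with hf0
  set y0 : J → K := fun j => u.z (Sum.inr j) with hy0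
  have huz : Sum.elim e0 y0 = u.z := by
    funext a
    cases a <;> rfl
  have htz : Sum.elim f0 y0 = t.z := by
    funext a
    cases a with
    | inl r => rfl
    | inr j => exact (hb j).symm
  obtain ⟨a, ha⟩ := binary_form X y0 e0 f0
  obtain ⟨L, iL, iA, i, α, β, b, hL, hab, hsp⟩ := exists_split hK a
  let _ := iL
  let _ := iA
  have hF : ∀ x x' : L, aeval (Sum.elim (x • (fun r => i (e0 r)) + x' • (fun r => i (f0 r)))
      (fun j => i (y0 j))) X.F = b * ∏ n, (β n * x - α n * x') := by
    intro x x'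
    have h1 := ha L i x x'
    rw [hsp x x'] at h1
    exact h1
  have hΛe : ∀ j, aeval (Sum.elim (fun r => i (e0 r)) (fun j => i (y0 j))) (X.Λ j) = 0 := by
    intro j
    have h1 : Sum.elim (fun r => i (e0 r)) (fun j => i (y0 j)) = fun a => i (u.z a) := by
      funext a
      cases a <;> rfl
    rw [h1, aeval_map, u.hΛ j, map_zero]
  have hΛf : ∀ j, aeval (Sum.elim (fun r => i (f0 r)) (fun j => i (y0 j))) (X.Λ j) = 0 := by
    intro j
    have h1 : Sum.elim (fun r => i (f0 r)) (fun j => i (y0 j)) = fun a => i (t.z a) := by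
      funext a
      cases a with
      | inl r => rfl
      | inr j => exact congrArg i (hb j).symm
    rw [h1, aeval_map, t.hΛ j, map_zero]
  have hind : LinearIndependent L ![fun r => i (e0 r), fun r => i (f0 r)] :=
    indep_map (i : K →+* L) e0 f0 hi
  refine ⟨L, iL, iA, i, hL, ?_⟩
  by_cases hb0 : b = 0
  · left
    intro x x'
    have h1 := hF x x'
    rw [hb0, zero_mul] at h1
    exact h1
  right
  have hΛw : ∀ n j, aeval (Sum.elim (α n • (fun r => i (e0 r)) + β n • (fun r => i (f0 r)))
      (fun j => i (y0 j))) (X.Λ j) = 0 := by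
    intro n j
    have h1 := hΛe j
    have h2 := hΛf j
    rw [lam_lin X j _ (0 : Fin (c + N) → L)] at h1 h2 ⊢
    have h3 : ∑ r, (α n • (fun r => i (e0 r)) + β n • (fun r => i (f0 r))) r *
        aeval (Sum.elim (0 : Fin (c + N) → L) (fun j => i (y0 j))) (pderiv (Sum.inl r) (X.Λ j)) =
        α n * (∑ r, i (e0 r) *
          aeval (Sum.elim (0 : Fin (c + N) → L) (fun j => i (y0 j)))
            (pderiv (Sum.inl r) (X.Λ j))) +
        β n * (∑ r, i (f0 r) *
          aeval (Sum.elim (0 : Fin (c + N) → L) (fun j => i (y0 j)))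
            (pderiv (Sum.inl r) (X.Λ j))) := by
      rw [Finset.mul_sum, Finset.mul_sum, ← Finset.sum_add_distrib]
      refine Finset.sum_congr rfl fun r _ => ?_
      simp only [Pi.add_apply, Pi.smul_apply, smul_eq_mul]
      ring
    rw [h3, h1, h2]
    ring
  let w : Fin N → Pt X L := fun n =>
    { z := Sum.elim (α n • (fun r => i (e0 r)) + β n • (fun r => i (f0 r))) (fun j => i (y0 j))
      x_ne := by
        obtain ⟨r, hr⟩ := comb_ne _ _ hind (α n) (β n) (hab n)
        exact ⟨r, hr⟩
      y_ne := fun s => by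
        obtain ⟨j, h1, h2⟩ := u.y_ne s
        exact ⟨j, h1, (map_ne_zero i).mpr h2⟩
      hE := fun g hg => by
        have h1 := aeval_map i (fun j => u.z (Sum.inr j)) g
        have h2 := u.hE g hg
        rw [h2, map_zero] at h1
        exact h1
      hΛ := hΛw n
      hF := by
        rw [hF (α n) (β n), Finset.prod_eq_zero (Finset.mem_univ n) (by ring), mul_zero] }
  have hβ : ∃ n, β n = 0 := by
    have h1 := hF 1 0
    have h2 : Sum.elim ((1 : L) • (fun r => i (e0 r)) + (0 : L) • (fun r => i (f0 r)))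
        (fun j => i (y0 j)) = fun a => i (u.z a) := by
      funext a
      cases a with
      | inl r => simp [he0]
      | inr j => rfl
    rw [h2, aeval_map, u.hF, map_zero] at h1
    have h3 := (mul_eq_zero.mp h1.symm).resolve_left hb0
    obtain ⟨n, -, hn⟩ := Finset.prod_eq_zero_iff.mp h3
    exact ⟨n, by simpa using hn⟩
  have hα : ∃ n, α n = 0 := by
    have h1 := hF 0 1
    have h2 : Sum.elim ((0 : L) • (fun r => i (e0 r)) + (1 : L) • (fun r => i (f0 r)))
        (fun j => i (y0 j)) = fun a => i (t.z a) := by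
      funext a
      cases a with
      | inl r => simp [hf0]
      | inr j => exact congrArg i (hb j).symm
    rw [h2, aeval_map, t.hF, map_zero] at h1
    have h3 := (mul_eq_zero.mp h1.symm).resolve_left hb0
    obtain ⟨n, -, hn⟩ := Finset.prod_eq_zero_iff.mp h3
    exact ⟨n, by simpa using hn⟩
  obtain ⟨n₁, hn₁⟩ := hβ
  obtain ⟨n₂, hn₂⟩ := hα
  have hα₁ : α n₁ ≠ 0 := (hab n₁).resolve_right (not_not.mpr hn₁)
  have hβ₂ : β n₂ ≠ 0 := (hab n₂).resolve_left (not_not.mpr hn₂)
  refine ⟨w, fun r => i (e0 r), fun r => i (f0 r), α, β, b, n₁, n₂, α n₁, β n₂, hα₁, hβ₂,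
    fun n j => rfl, ⟨hind, hΛe, hΛf, hab, fun n => rfl, hF, hb0⟩, fun r => ?_, fun r => ?_⟩
  · change (α n₁ • (fun r => i (e0 r)) + β n₁ • (fun r => i (f0 r))) r = _
    simp [hn₁, he0]
  · change (α n₂ • (fun r => i (e0 r)) + β n₂ • (fun r => i (f0 r))) r = _
    simp [hn₂, hf0]


end Pool.Agent.LibPN22
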