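import Pool.Agent.LibPN22.A4
import Pool.Agent.LibPN22.B2
import Pool.Agent.LibPN22.D5
import Pool.Agent.LibPN22.E1
import Pool.Agent.LibPC60.B7
import Pool.Agent.LibPC60.D15

/-!
Assembly: the main theorem of PN22.
-/

open scoped Classical
open MvPolynomial

set_option linter.unusedSectionVars false

namespace Pool.Agent.LibPN22

open Pool.Agent.LibBH2 Pool.Agent.LibQC8 Pool.Agent.LibPC60

variable {k J S : Type} [Field k] [IsAlgClosed k] {c N : ℕ} [Fintype J] [Fintype S]
  {K : Type} [Field K] [Algebra k K]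

theorem del_of_tri (X : Fam k J S c N) (ζ : Cyc X) (hζ : IsZ X ζ) (p : Pt X k)
    (h : Tri X (fun j => p.z (Sum.inr j)) (fun _ r => p.z (Sum.inl r))) : del ζ p = 0 := by
  have h1 := hζ ⟨fun j => p.z (Sum.inr j), p.y_ne, p.hE⟩ (fun _ => p) (fun _ _ => rfl) h
  unfold del
  rw [← h1, Finset.sum_const, Finset.card_univ, Fintype.card_fin, ← Nat.cast_smul_eq_nsmul ℚ,
    sub_self]

/-- all values of a `K`-point with a line of contact `N` are bad -/
theorem del_lim (X : Fam k J S c N) (hK : IsFunctionField k K) (ζ : Cyc X) (hζ : IsZ X ζ)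
    (u : Pt X K) (h : Tri X (fun j => u.z (Sum.inr j)) (fun _ r => u.z (Sum.inl r)))
    (v : Place k K) (p : Pt X k) (l : K) (m : S → K) (hs : Sp v u p l m) : del ζ p = 0 := by
  refine del_of_tri X ζ hζ p ?_
  refine tri_lim X hK v _ _ h m hs.m_ne _ ?_ (fun _ => l) (fun _ => hs.l_ne) _ ?_ ?_
  · intro j
    have := hs.val (Sum.inr j)
    rwa [chi_wt_inr] at this
  · intro n hn
    obtain ⟨r, hr⟩ := p.x_ne
    exact hr (congrFun hn r)
  · intro n r
    exact hs.val (Sum.inl r)

theorem van_of_bad (X : Fam k J S c N) (ζ : Cyc X) (D : Deg S) (u : Pt X K)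
    (h : ∀ v p l m, Sp v u p l m → del ζ p = 0) : Van X ζ D u := by
  intro p l m hs A _
  refine Finset.sum_eq_zero fun v _ => ?_
  rw [h v (p v) (l v) (m v) (hs v), smul_zero]

theorem bad_map [CharZero k] {L : Type} [Field L] [Algebra k L] (X : Fam k J S c N)
    (hK : IsFunctionField k K) (hL : IsFunctionField k L) (i : K →ₐ[k] L) (ζ : Cyc X)
    (u : Pt X K) (h : ∀ v p l m, Sp v u p l m → del ζ p = 0) :
    ∀ v p l m, Sp v (ptMap i u) p l m → del ζ p = 0 := by
  intro w p l m hs
  obtain ⟨n, ρ, e, -, he, h1, -⟩ := places_above hK hL i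
  obtain ⟨q, l', m', hq⟩ := exists_sp X hK (ρ w) u
  have h2 := sp_map X i w (ρ w) (e w) (he w) (h1 w) u q l' m' hq
  have h3 := (sp_unique X w (ptMap i u) hs h2).1
  have h4 := h _ _ _ _ hq
  unfold del at h4 ⊢
  rw [h3]
  exact h4

/-- `N_X · Γ` for every curve `Γ` -/
theorem van_all [CharZero k] (X : Fam k J S c N) (hN : 3 ≤ N) (hK : IsFunctionField k K)
    (ζ : Cyc X) (hζ : IsZ X ζ) (u : Pt X K) : Van X ζ (NN X) u := by
  obtain ⟨L, _, _, i, t, hL, htb, hT⟩ :=
    exists_flex X hN hK ⟨fun j => u.z (Sum.inr j), u.y_ne, u.hE⟩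
  refine van_descend X hK hL i ζ _ u ?_
  have hT' : Tri X (fun j => t.z (Sum.inr j)) (fun _ r => t.z (Sum.inl r)) := by
    have h1 : (fun j => t.z (Sum.inr j)) = fun j => i (u.z (Sum.inr j)) := funext htb
    rw [h1]
    exact hT
  have hbad := del_lim X hL ζ hζ t hT'
  by_cases hi : LinearIndependent L ![fun r => (ptMap i u).z (Sum.inl r),
      fun r => t.z (Sum.inl r)]
  · obtain ⟨L', _, _, i', hL', hc⟩ := through X hL (ptMap i u) t (fun j => htb j) hi
    refine van_descend X hL hL' i' ζ _ _ ?_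
    rcases hc with hc | ⟨w, e, f, α, β, a, n₁, n₂, x₁, x₂, hx₁, hx₂, hwb, hw, hw1, hw2⟩
    · -- the line lies in `X`
      refine van_of_bad X ζ _ _ (del_lim X hL' ζ hζ _ ?_)
      refine ⟨fun r => i' ((ptMap i u).z (Sum.inl r)), fun r => i' (t.z (Sum.inl r)), ?_, ?_, ?_,
        fun _ => 1, fun _ => 0, 0, ?_, ?_⟩
      · -- independence
        rw [LinearIndependent.pair_iff] at hi ⊢
        intro x x' hxx
        by_contra hne
        -- some minor of the two vectors is nonzero
        have hmin : ∀ r s, (ptMap i u).z (Sum.inl r) * t.z (Sum.inl s) -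
            (ptMap i u).z (Sum.inl s) * t.z (Sum.inl r) = 0 := by
          intro r s
          have h1 := congrFun hxx r
          have h2 := congrFun hxx s
          simp only [Pi.add_apply, Pi.smul_apply, smul_eq_mul, Pi.zero_apply] at h1 h2
          have h3 : i' ((ptMap i u).z (Sum.inl r) * t.z (Sum.inl s) -
              (ptMap i u).z (Sum.inl s) * t.z (Sum.inl r)) = 0 := by
            rw [map_sub, map_mul, map_mul]
            by_cases hx : x = 0
            · have hx' : x' ≠ 0 := fun h => hne ⟨hx, h⟩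
              rw [hx, zero_mul, zero_add] at h1 h2
              have h4 := (mul_eq_zero.1 h1).resolve_left hx'
              have h5 := (mul_eq_zero.1 h2).resolve_left hx'
              rw [h4, h5]
              ring
            · apply mul_left_cancel₀ hx
              linear_combination i' (t.z (Sum.inl s)) * h1 - i' (t.z (Sum.inl r)) * h2
          exact (map_eq_zero i').1 h3
        obtain ⟨r, hr⟩ := (ptMap i u).x_ne
        have h6 := hi (t.z (Sum.inl r)) (-(ptMap i u).z (Sum.inl r)) (by
          funext s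
          simp only [Pi.add_apply, Pi.smul_apply, smul_eq_mul, Pi.zero_apply]
          linear_combination -(hmin r s))
        exact hr (neg_eq_zero.1 h6.2)
      · intro j
        have h1 := (ptMap i' (ptMap i u)).hΛ j
        have h2 : (Sum.elim (fun r => i' ((ptMap i u).z (Sum.inl r)))
            (fun j => (ptMap i' (ptMap i u)).z (Sum.inr j))) = (ptMap i' (ptMap i u)).z := by
          funext a
          rcases a with a | a <;> rfl
        rw [h2]
        exact h1
      · intro j
        have h1 := (ptMap i' t).hΛ j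
        have h2 : (Sum.elim (fun r => i' (t.z (Sum.inl r)))
            (fun j => (ptMap i' (ptMap i u)).z (Sum.inr j))) = (ptMap i' t).z := by
          funext a
          rcases a with a | a
          · rfl
          · change i' (i (u.z (Sum.inr a))) = i' (t.z (Sum.inr a))
            rw [htb]
        rw [h2]
        exact h1
      · intro n
        refine ⟨Or.inl one_ne_zero, ?_⟩
        simp only [one_smul, zero_smul, add_zero]
        rfl
      · intro x x'
        rw [zero_mul]
        exact hc x x'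
    · -- a tuple through `u` and `t`
      have hb2 : Van X ζ (NN X) (w n₂) := by
        refine van_scale X hL' ζ _ (ptMap i' t) (w n₂) x₂ hx₂ hw2 ?_ ?_
        · intro j
          rw [hwb]
          change i' (i (u.z (Sum.inr j))) = i' (t.z (Sum.inr j))
          rw [htb]
        · exact van_of_bad X ζ _ _ (bad_map X hL hL' i' ζ t hbad)
      have hb1 : Van X ζ (NN X) (w n₁) := by
        refine van_tuple X hL' ζ hζ (bMap i' ⟨fun j => (ptMap i u).z (Sum.inr j),
          (ptMap i u).y_ne, (ptMap i u).hE⟩) e f α β a w hwb hw n₁ n₂ hb2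
      refine van_scale X hL' ζ _ (w n₁) _ x₁⁻¹ (inv_ne_zero hx₁) ?_ ?_ hb1
      · intro r
        rw [hw1, ← mul_assoc, inv_mul_cancel₀ hx₁, one_mul]
        rfl
      · intro j
        rw [hwb]
        rfl
  · -- `u` and `t` are proportional
    have hx : ∃ x : L, x ≠ 0 ∧ ∀ r, (ptMap i u).z (Sum.inl r) = x * t.z (Sum.inl r) := by
      rw [LinearIndependent.pair_iff] at hi
      push Not at hi
      obtain ⟨x, x', hxx, hne⟩ := hi
      obtain ⟨r₀, hr₀⟩ := (ptMap i u).x_ne
      obtain ⟨s₀, hs₀⟩ := t.x_ne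
      have h1 : ∀ r, x * (ptMap i u).z (Sum.inl r) + x' * t.z (Sum.inl r) = 0 := by
        intro r
        have := congrFun hxx r
        simpa using this
      have hx0 : x ≠ 0 := by
        intro h0
        have h2 := h1 s₀
        rw [h0, zero_mul, zero_add] at h2
        exact hne h0 ((mul_eq_zero.1 h2).resolve_right hs₀)
      have hx0' : x' ≠ 0 := by
        intro h0
        have h2 := h1 r₀
        rw [h0, zero_mul, add_zero] at h2
        exact hr₀ ((mul_eq_zero.1 h2).resolve_left hx0)
      refine ⟨-x' / x, div_ne_zero (neg_ne_zero.2 hx0') hx0, fun r => ?_⟩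
      field_simp
      linear_combination h1 r
    obtain ⟨x, hx0, hx⟩ := hx
    refine van_scale X hL ζ _ t _ x hx0 hx (fun j => (htb j).symm) ?_
    exact van_of_bad X ζ _ _ hbad

theorem cl_smul' {X : Fam k J S c N} (q : ℚ) (a : Cyc X) : cl (q • a) = q • cl a := rfl

theorem cl_sum' {X : Fam k J S c N} {ι : Type} (A : Finset ι) (f : ι → Cyc X) :
    cl (∑ i ∈ A, f i) = ∑ i ∈ A, cl (f i) := by
  have := map_sum (Submodule.mkQ (Rat X)) f A
  exact this

theorem dg_sum' {X : Fam k J S c N} {ι : Type} (A : Finset ι) (q : ι → ℚ) (p : ι → Pt X k) :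
    dg (∑ i ∈ A, q i • pt (p i)) = ∑ i ∈ A, q i := by
  unfold dg
  induction A using Finset.induction_on with
  | empty => simp
  | insert a A ha ih =>
    rw [Finset.sum_insert ha, Finset.sum_insert ha, Finsupp.sum_add_index' (by simp) (by simp), ih]
    congr 1
    unfold LibPC60.pt
    rw [Finsupp.smul_single, Finsupp.sum_single_index rfl]
    simp

/-- the degree as a linear map -/
noncomputable def dgL (X : Fam k J S c N) : Cyc X →ₗ[ℚ] ℚ := Finsupp.linearCombination ℚ (fun _ => 1)

theorem dgL_eq (X : Fam k J S c N) (a : Cyc X) : dgL X a = dg a := by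
  unfold dgL dg
  rw [Finsupp.linearCombination_apply]
  simp

/-- the degree of a zero-cycle rationally equivalent to zero is zero -/
theorem dg_zero (X : Fam k J S c N) (a : Cyc X) (h : cl a = 0) : dg a = 0 := by
  have h1 : a ∈ Rat X := (Submodule.Quotient.mk_eq_zero _).1 h
  have h2 : Rat X ≤ LinearMap.ker (dgL X) := by
    refine Submodule.span_le.2 ?_
    rintro b ⟨K, _, _, u, f, A, p, hK, hf, hA, -, rfl⟩
    rw [SetLike.mem_coe, LinearMap.mem_ker, dgL_eq, dg_sum']
    obtain ⟨-, h4⟩ := Pool.Agent.LibEnd77.Val8.sum_formula hK f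
    rw [finsum_eq_sum_of_support_subset _ (s := A) (by
      intro v hv
      exact hA v hv)] at h4
    exact_mod_cast h4
  have h3 := h2 h1
  rwa [LinearMap.mem_ker, dgL_eq] at h3

/-- The main theorem. -/
theorem main [CharZero k] (X : Fam k J S c N) (hN : 3 ≤ N) (hB : RCC X) (y : BPt X k) :
    (∀ a : Cyc X, cl a = 0 → dg a = 0) ∧
    ∃ ζ : Cyc X, dg ζ = N ∧
      ∀ (K : Type) [Field K] [Algebra k K], IsFunctionField k K → ∀ (u : Pt X K),
        (∃ a, IsInt (NN X) u a) ∧ ∀ a, IsInt (NN X) u a → (N : ℚ) • cl a = dg a • cl ζ := by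
  refine ⟨dg_zero X, ?_⟩
  obtain ⟨ζ, hζ3, hζ⟩ := zconst X (by omega) hB y
  refine ⟨ζ, hζ3, ?_⟩
  intro K _ _ hK u
  refine ⟨exists_int X hK (NN X) u, ?_⟩
  rintro a ⟨A, p, l, m, hs, hA, rfl⟩
  have h1 := van_all X hN hK ζ hζ u p l m hs A (by
    intro v hv
    by_contra hvA
    exact hv (hA v hvA))
  rw [dg_sum', cl_sum']
  unfold del at h1
  simp_rw [smul_sub, Finset.sum_sub_distrib, ← Finset.sum_smul] at h1
  rw [sub_eq_zero] at h1
  rw [← h1, Finset.smul_sum]
  refine Finset.sum_congr rfl fun v _ => ?_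
  rw [cl_smul', smul_comm]

end Pool.Agent.LibPN22
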