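import Pool.Agent.LibPN22.Defs
import Pool.Agent.LibPC60.A1
import Pool.Agent.LibPC60.A2
import Pool.Agent.LibPC60.A3
import Pool.Agent.LibPC60.D2
import Pool.Agent.LibPC60.C4

/-!
[PN22 A1] the local relations of a tuple at a place. This is the proof of row D3 (`triW_lim`) of PC60 with two more conclusions; the proved file is
/team-store/PC60_D3.lean (copy what you need as private lemmas; also /team-store/PC60_D4.lean for the use of `exists_echelon`). Plan:
`e' i = chi 1 m (wt (inl i)) * e i`, same `f'`; they are independent (`chi_ne`); `exists_echelon` gives `g₁ .. g₄`, `Δ = g₁ g₄ - g₂ g₃ ≠ 0`, and independent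
`e₀, f₀`, the values of `E = g₁ e' + g₂ f'`, `G = g₃ e' + g₄ f'`. Put `d = v.ord Δ`. `chi (l n) m (wt (inl i)) * u n i = a' n * E i + b' n * G i` with
`a' n = l n (α n g₄ - β n g₃) / Δ`, `b' n = l n (β n g₁ - α n g₂) / Δ`; they have values `α₀ n, β₀ n : k` (Cramer, a minor of `e₀, f₀` is nonzero), with
`p₀ n = α₀ n e₀ + β₀ n f₀`, not both zero. `a' i * b' j - a' j * b' i = l i * l j * (α i β j - α j β i) / Δ` has the value `α₀ i β₀ j - α₀ j β₀ i`; if
`p₀ i, p₀ j` are not proportional this value is not zero, so the order is zero (`Place.ord_eq_zero_of_val`): first conclusion.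
`F(s E + t G, m y) = a'' ∏ (b' n s - a' n t)` with `a'' = chi 1 m (0, β) * a * Δ ^ N / ∏ l n` (`chi 1 m (N, β) = chi 1 m (0, β)`), `a''` has a value `a₀` as in
D3. If `a₀ ≠ 0`: `v.ord a'' = 0`, left alternative. If `a₀ = 0`: `F(s e₀ + t f₀, y₀) = 0` for all `s t : k`, and `TriW X y₀ e₀ f₀ (fun _ => p₀ n)` with the
constant `0`: right alternative.
-/

open scoped Classical
open MvPolynomial

set_option linter.unusedSectionVars false

namespace Pool.Agent.LibPN22

open Pool.Agent.LibBH2 Pool.Agent.LibQC8 Pool.Agent.LibPC60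

variable {k J S : Type} [Field k] [IsAlgClosed k] {c N : ℕ} [Fintype J] [Fintype S]
  {K : Type} [Field K] [Algebra k K]

private theorem A1_val (X : Fam k J S c N) (v : Place k K) (y : J → K) (m : S → K)
    (hm : ∀ t, m t ≠ 0) (y₀ : J → k)
    (hy : ∀ j, v.Zer (m (X.fac j) * y j - algebraMap k K (y₀ j)))
    (P : MvPolynomial (Fin (c + N) ⊕ J) k) (D : Deg S)
    (hP : IsWeightedHomogeneous (wt X.fac X.α) P D) (x : Fin (c + N) → K)
    (x₀ : Fin (c + N) → k)
    (hx : ∀ i, v.Zer (chi 1 m (wt X.fac X.α (Sum.inl i)) * x i - algebraMap k K (x₀ i))) :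
    v.Zer (chi 1 m D * aeval (Sum.elim x y) P -
      algebraMap k K (aeval (Sum.elim x₀ y₀) P)) := by
  rw [← aeval_scale (wt X.fac X.α) P D hP 1 m one_ne_zero hm (Sum.elim x y)]
  apply zer_aeval
  rintro (i | j)
  · exact hx i
  · simp only [Sum.elim_inr]
    rw [chi_wt_inr]
    exact hy j

private theorem A1_minor {n : ℕ} (e f : Fin n → k) (h : LinearIndependent k ![e, f]) :
    ∃ i₁ i₂, e i₁ * f i₂ - e i₂ * f i₁ ≠ 0 := by
  by_contra hcon
  push Not at hcon
  rw [LinearIndependent.pair_iff] at h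
  have h1 : ∀ i₁, f i₁ = 0 ∧ -e i₁ = 0 := by
    intro i₁
    apply h
    funext i₂
    have := hcon i₁ i₂
    simp only [Pi.add_apply, Pi.smul_apply, smul_eq_mul, Pi.zero_apply]
    linear_combination -this
  have h2 := h 1 0 (by
    funext i
    have := (h1 i).2
    simp only [Pi.add_apply, Pi.smul_apply, smul_eq_mul, Pi.zero_apply]
    linear_combination -this)
  exact one_ne_zero h2.1

private theorem A1_prod (v : Place k K) {ι : Type} (s : Finset ι) (g : ι → K) (g₀ : ι → k)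
    (h : ∀ n, v.Zer (g n - algebraMap k K (g₀ n))) :
    v.Zer (∏ n ∈ s, g n - algebraMap k K (∏ n ∈ s, g₀ n)) := by
  induction s using Finset.induction_on with
  | empty =>
    rw [Finset.prod_empty, Finset.prod_empty, map_one, sub_self]
    exact v.zer_zero
  | insert a s ha ih =>
    rw [Finset.prod_insert ha, Finset.prod_insert ha]
    exact Place.val_mul (h a) ih

private theorem A1_tau {N : ℕ} (α β : Fin N → k) (h : ∀ n, α n ≠ 0 ∨ β n ≠ 0) :
    ∃ τ : k, ∏ n, (β n * 1 - α n * τ) ≠ 0 := by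
  have : Infinite k := IsAlgClosed.instInfinite
  by_contra hcon
  push Not at hcon
  have h1 : (∏ n, (Polynomial.C (β n) - Polynomial.C (α n) * Polynomial.X)) =
      (0 : Polynomial k) := by
    apply Polynomial.funext
    intro r
    rw [Polynomial.eval_prod, Polynomial.eval_zero, ← hcon r]
    refine Finset.prod_congr rfl fun n _ => ?_
    simp
  rw [Finset.prod_eq_zero_iff] at h1
  obtain ⟨n, -, hn⟩ := h1
  have h2 : β n = 0 := by
    have := congrArg (fun q => Polynomial.coeff q 0) hn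
    simpa using this
  have h3 : α n = 0 := by
    have := congrArg (fun q => Polynomial.coeff q 1) hn
    simpa [Polynomial.coeff_C] using this
  rcases h n with h4 | h4
  · exact h4 h3
  · exact h4 h2

private theorem A1_lam (X : Fam k J S c N) (v : Place k K) (y : J → K) (m : S → K)
    (hm : ∀ t, m t ≠ 0) (y₀ : J → k)
    (hy : ∀ j, v.Zer (m (X.fac j) * y j - algebraMap k K (y₀ j)))
    (x : Fin (c + N) → K) (x₀ : Fin (c + N) → k)
    (hx : ∀ i, v.Zer (chi 1 m (wt X.fac X.α (Sum.inl i)) * x i - algebraMap k K (x₀ i)))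
    (h1 : ∀ j, aeval (Sum.elim x y) (X.Λ j) = 0) : ∀ j, aeval (Sum.elim x₀ y₀) (X.Λ j) = 0 := by
  intro j
  have h2 := A1_val X v y m hm y₀ hy (X.Λ j) _ (X.homΛ j) x x₀ hx
  rw [h1 j, mul_zero, zero_sub] at h2
  have h3 := h2.neg
  rw [neg_neg, Place.zer_const_iff] at h3
  exact h3

private theorem A1_lin (X : Fam k J S c N) (y : J → K) (e f : Fin (c + N) → K)
    (he : ∀ j, aeval (Sum.elim e y) (X.Λ j) = 0) (hf : ∀ j, aeval (Sum.elim f y) (X.Λ j) = 0)
    (u w : K) : ∀ j, aeval (Sum.elim (u • e + w • f) y) (X.Λ j) = 0 := by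
  intro j
  have h1 := lam_lin X j (u • e + w • f) e y
  have h2 := lam_lin X j e e y
  have h3 := lam_lin X j f e y
  rw [he j] at h2
  rw [hf j] at h3
  rw [h1]
  have h4 : ∑ i, (u • e + w • f) i * aeval (Sum.elim e y) (pderiv (Sum.inl i) (X.Λ j)) =
      u * ∑ i, e i * aeval (Sum.elim e y) (pderiv (Sum.inl i) (X.Λ j)) +
      w * ∑ i, f i * aeval (Sum.elim e y) (pderiv (Sum.inl i) (X.Λ j)) := by
    rw [Finset.mul_sum, Finset.mul_sum, ← Finset.sum_add_distrib]
    refine Finset.sum_congr rfl fun i _ => ?_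
    simp only [Pi.add_apply, Pi.smul_apply, smul_eq_mul]
    ring
  rw [h4, ← h2, ← h3]
  ring

private theorem A1_ordprod (v : Place k K) {n : ℕ} (l : Fin n → K) (hl : ∀ i, l i ≠ 0)
    (s : Finset (Fin n)) : v.ord (∏ i ∈ s, l i) = ∑ i ∈ s, v.ord (l i) := by
  induction s using Finset.induction_on with
  | empty => rw [Finset.prod_empty, Finset.sum_empty, Place.ord_one]
  | insert a s ha ih =>
    rw [Finset.prod_insert ha, Finset.sum_insert ha, v.ord_mul _ _ (hl a)
      (Finset.prod_ne_zero_iff.2 fun i _ => hl i), ih]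

private theorem A1_core (X : Fam k J S c N) (v : Place k K) (y : J → K)
    (e f : Fin (c + N) → K) (α β : Fin N → K) (a : K)
    (p : Fin N → (Fin (c + N) → K)) (hab : ∀ n, p n = α n • e + β n • f)
    (hF : ∀ s t : K, aeval (Sum.elim (s • e + t • f) y) X.F = a * ∏ n, (β n * s - α n * t))
    (m : S → K) (hm : ∀ t, m t ≠ 0)
    (y₀ : J → k) (hy : ∀ j, v.Zer (m (X.fac j) * y j - algebraMap k K (y₀ j)))
    (e₀ f₀ : Fin (c + N) → k) (h0 : LinearIndependent k ![e₀, f₀])
    (he : ∀ i, v.Zer (chi 1 m (wt X.fac X.α (Sum.inl i)) * e i - algebraMap k K (e₀ i)))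
    (hf : ∀ i, v.Zer (chi 1 m (wt X.fac X.α (Sum.inl i)) * f i - algebraMap k K (f₀ i)))
    (l : Fin N → K) (hl : ∀ n, l n ≠ 0) (p₀ : Fin N → (Fin (c + N) → k)) (hp : ∀ n, p₀ n ≠ 0)
    (hv : ∀ n i, v.Zer (chi (l n) m (wt X.fac X.α (Sum.inl i)) * p n i -
      algebraMap k K (p₀ n i))) :
    ∃ (α₀ β₀ : Fin N → k) (a₀ : k), (∀ n, v.Zer (l n * α n - algebraMap k K (α₀ n))) ∧
      (∀ n, v.Zer (l n * β n - algebraMap k K (β₀ n))) ∧
      (∀ n, (α₀ n ≠ 0 ∨ β₀ n ≠ 0) ∧ p₀ n = α₀ n • e₀ + β₀ n • f₀) ∧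
      v.Zer (chi 1 m (((N : ℤ), X.β) : Deg S) * a / ∏ n, l n - algebraMap k K a₀) ∧
      ∀ s t : k, aeval (Sum.elim (s • e₀ + t • f₀) y₀) X.F = a₀ * ∏ n, (β₀ n * s - α₀ n * t) := by
  obtain ⟨i₁, i₂, hδ⟩ := A1_minor e₀ f₀ h0
  -- the values of the coefficients
  obtain ⟨w, hw⟩ : ∃ w : Fin (c + N) → K, w = fun i => chi 1 m (wt X.fac X.α (Sum.inl i)) :=
    ⟨_, rfl⟩
  have hwi : ∀ i, chi 1 m (wt X.fac X.α (Sum.inl i)) = w i := fun i => by rw [hw]
  simp only [hwi] at he hf
  have hP : ∀ n i, v.Zer (l n * α n * (w i * e i) + l n * β n * (w i * f i) -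
      algebraMap k K (p₀ n i)) := by
    intro n i
    have h1 := hv n i
    rw [chi_wt_inl, hwi, hab n] at h1
    have h2 : l n * w i * (α n • e + β n • f) i =
        l n * α n * (w i * e i) + l n * β n * (w i * f i) := by
      simp only [Pi.add_apply, Pi.smul_apply, smul_eq_mul]
      ring
    rw [← h2]
    exact h1
  have hδv := Place.val_sub (Place.val_mul (he i₁) (hf i₂)) (Place.val_mul (he i₂) (hf i₁))
  have hδ1 : w i₁ * e i₁ * (w i₂ * f i₂) - w i₂ * e i₂ * (w i₁ * f i₁) ≠ 0 :=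
    Place.ne_zero_of_val hδv hδ
  have hα : ∀ n, ∃ α₀ : k, v.Zer (l n * α n - algebraMap k K α₀) := by
    intro n
    refine ⟨(p₀ n i₁ * f₀ i₂ - p₀ n i₂ * f₀ i₁) / (e₀ i₁ * f₀ i₂ - e₀ i₂ * f₀ i₁), ?_⟩
    have h1 := Place.val_div (Place.val_sub (Place.val_mul (hP n i₁) (hf i₂))
      (Place.val_mul (hP n i₂) (hf i₁))) hδv hδ
    have h2 : ((l n * α n * (w i₁ * e i₁) + l n * β n * (w i₁ * f i₁)) * (w i₂ * f i₂) -
        (l n * α n * (w i₂ * e i₂) + l n * β n * (w i₂ * f i₂)) * (w i₁ * f i₁)) /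
        (w i₁ * e i₁ * (w i₂ * f i₂) - w i₂ * e i₂ * (w i₁ * f i₁)) = l n * α n := by
      rw [div_eq_iff hδ1]
      ring
    rw [h2] at h1
    exact h1
  have hβ : ∀ n, ∃ β₀ : k, v.Zer (l n * β n - algebraMap k K β₀) := by
    intro n
    refine ⟨(e₀ i₁ * p₀ n i₂ - e₀ i₂ * p₀ n i₁) / (e₀ i₁ * f₀ i₂ - e₀ i₂ * f₀ i₁), ?_⟩
    have h1 := Place.val_div (Place.val_sub (Place.val_mul (he i₁) (hP n i₂))
      (Place.val_mul (he i₂) (hP n i₁))) hδv hδ
    have h2 : (w i₁ * e i₁ * (l n * α n * (w i₂ * e i₂) + l n * β n * (w i₂ * f i₂)) -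
        w i₂ * e i₂ * (l n * α n * (w i₁ * e i₁) + l n * β n * (w i₁ * f i₁))) /
        (w i₁ * e i₁ * (w i₂ * f i₂) - w i₂ * e i₂ * (w i₁ * f i₁)) = l n * β n := by
      rw [div_eq_iff hδ1]
      ring
    rw [h2] at h1
    exact h1
  choose α₀ hα₀ using hα
  choose β₀ hβ₀ using hβ
  have hp₀ : ∀ n, p₀ n = α₀ n • e₀ + β₀ n • f₀ := by
    intro n
    funext i
    have h1 := Place.val_add (Place.val_mul (hα₀ n) (he i)) (Place.val_mul (hβ₀ n) (hf i))
    exact Place.val_unique (hP n i) h1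
  have hne : ∀ n, α₀ n ≠ 0 ∨ β₀ n ≠ 0 := by
    intro n
    by_contra hcon
    push Not at hcon
    apply hp n
    rw [hp₀ n, hcon.1, hcon.2, zero_smul, zero_smul, add_zero]
  -- the values of the polynomial on the line
  have hL : ∏ n, l n ≠ 0 := Finset.prod_ne_zero_iff.2 fun n _ => hl n
  obtain ⟨a', ha'⟩ : ∃ a' : K, a' = chi 1 m (((N : ℤ), X.β) : Deg S) * a / ∏ n, l n := ⟨_, rfl⟩
  have hΦ : ∀ s t : k, v.Zer (a' * ∏ n, (l n * β n * algebraMap k K s -
      l n * α n * algebraMap k K t) -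
      algebraMap k K (aeval (Sum.elim (s • e₀ + t • f₀) y₀) X.F)) := by
    intro s t
    have h1 := A1_val X v y m hm y₀ hy X.F _ X.homF
      (algebraMap k K s • e + algebraMap k K t • f) (s • e₀ + t • f₀) (by
        intro i
        have h2 := Place.val_add (Place.val_mul (Place.val_const (v := v) s) (he i))
          (Place.val_mul (Place.val_const (v := v) t) (hf i))
        have h3 : chi 1 m (wt X.fac X.α (Sum.inl i)) *
            (algebraMap k K s • e + algebraMap k K t • f) i =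
            algebraMap k K s * (w i * e i) + algebraMap k K t * (w i * f i) := by
          rw [hwi]
          simp only [Pi.add_apply, Pi.smul_apply, smul_eq_mul]
          ring
        rw [h3]
        exact h2)
    rw [hF] at h1
    have h4 : a' * ∏ n, (l n * β n * algebraMap k K s - l n * α n * algebraMap k K t) =
        chi 1 m (((N : ℤ), X.β) : Deg S) *
          (a * ∏ n, (β n * algebraMap k K s - α n * algebraMap k K t)) := by
      have h5 : ∏ n, (l n * β n * algebraMap k K s - l n * α n * algebraMap k K t) =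
          (∏ n, l n) * ∏ n, (β n * algebraMap k K s - α n * algebraMap k K t) := by
        rw [← Finset.prod_mul_distrib]
        refine Finset.prod_congr rfl fun n _ => ?_
        ring
      rw [h5, ha', div_mul_eq_mul_div, div_eq_iff hL]
      ring
    rw [h4]
    exact h1
  have hPr : ∀ s t : k, v.Zer (∏ n, (l n * β n * algebraMap k K s -
      l n * α n * algebraMap k K t) - algebraMap k K (∏ n, (β₀ n * s - α₀ n * t))) := by
    intro s t
    apply A1_prod
    intro n
    exact Place.val_sub (Place.val_mul (hβ₀ n) (Place.val_const s))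
      (Place.val_mul (hα₀ n) (Place.val_const t))
  obtain ⟨τ, hτ⟩ := A1_tau α₀ β₀ hne
  obtain ⟨a₀, ha₀⟩ : ∃ a₀ : k, v.Zer (a' - algebraMap k K a₀) := by
    have h1 := Place.val_div (hΦ 1 τ) (hPr 1 τ) hτ
    rw [mul_div_cancel_right₀ _ (Place.ne_zero_of_val (hPr 1 τ) hτ)] at h1
    exact ⟨_, h1⟩
  refine ⟨α₀, β₀, a₀, hα₀, hβ₀, fun n => ⟨hne n, hp₀ n⟩, ha' ▸ ha₀, fun s t => ?_⟩
  exact Place.val_unique (hΦ s t) (Place.val_mul ha₀ (hPr s t))

/-- [A1] the local relations of a tuple at a place -/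
theorem loc (X : Fam k J S c N) (hK : IsFunctionField k K) (v : Place k K) (y : J → K)
    (e f : Fin (c + N) → K) (α β : Fin N → K) (a : K) (u : Fin N → Fin (c + N) → K)
    (h : TupW X y e f α β a u) (m : S → K) (hm : ∀ t, m t ≠ 0) (y₀ : J → k)
    (hy : ∀ j, v.Zer (m (X.fac j) * y j - algebraMap k K (y₀ j)))
    (l : Fin N → K) (hl : ∀ n, l n ≠ 0) (p₀ : Fin N → (Fin (c + N) → k)) (hp : ∀ n, p₀ n ≠ 0)
    (hv : ∀ n i, v.Zer (chi (l n) m (wt X.fac X.α (Sum.inl i)) * u n i -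
      algebraMap k K (p₀ n i))) :
    ∃ d : ℤ, (∀ i j, α i * β j - α j * β i ≠ 0 →
        (∃ r s, p₀ i r * p₀ j s - p₀ i s * p₀ j r ≠ 0) →
        v.ord (α i * β j - α j * β i) + v.ord (l i) + v.ord (l j) = d) ∧
      (v.ord a + v.ord (chi 1 m ((0, X.β) : Deg S)) + N * d = ∑ n, v.ord (l n) ∨
        ∀ n, Tri X y₀ (fun _ => p₀ n)) := by
  have hw : ∀ i, chi (1 : K) m (wt X.fac X.α (Sum.inl i)) ≠ 0 := fun i => chi_ne 1 m one_ne_zero hm _
  have hind' : LinearIndependent K ![fun i => chi 1 m (wt X.fac X.α (Sum.inl i)) * e i,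
      fun i => chi 1 m (wt X.fac X.α (Sum.inl i)) * f i] := by
    have hind := h.ind
    rw [LinearIndependent.pair_iff] at hind ⊢
    intro a b hab
    apply hind a b
    funext i
    have := congrFun hab i
    simp only [Pi.add_apply, Pi.smul_apply, smul_eq_mul, Pi.zero_apply] at this ⊢
    have h2 : chi 1 m (wt X.fac X.α (Sum.inl i)) * (a * e i + b * f i) = 0 := by
      rw [← this]; ring
    exact (mul_eq_zero.mp h2).resolve_left (hw i)
  obtain ⟨g₁, g₂, g₃, g₄, e₀, f₀, hg, h0, hve, hvf⟩ := exists_echelon hK v _ _ hind'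
  obtain ⟨Δ, hΔ⟩ : ∃ Δ, Δ = g₁ * g₄ - g₂ * g₃ := ⟨_, rfl⟩
  rw [← hΔ] at hg
  have hL : ∏ n, l n ≠ 0 := Finset.prod_ne_zero_iff.2 fun n _ => hl n
  have hcomb : ∀ s t : K, s • (g₁ • e + g₂ • f) + t • (g₃ • e + g₄ • f) =
      (s * g₁ + t * g₃) • e + (s * g₂ + t * g₄) • f := by
    intro s t
    module
  obtain ⟨α₀, β₀, a₀, hα, hβ, hp₀, ha₀, hF₀⟩ := A1_core X v y (g₁ • e + g₂ • f) (g₃ • e + g₄ • f)
    (fun n => (g₄ * α n - g₃ * β n) / Δ) (fun n => (g₁ * β n - g₂ * α n) / Δ) (a * Δ ^ N) u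
    (by
      intro n
      have ea : (g₄ * α n - g₃ * β n) / Δ * g₁ + (g₁ * β n - g₂ * α n) / Δ * g₃ = α n := by
        field_simp
        rw [hΔ]
        ring
      have eb : (g₄ * α n - g₃ * β n) / Δ * g₂ + (g₁ * β n - g₂ * α n) / Δ * g₄ = β n := by
        field_simp
        rw [hΔ]
        ring
      rw [hcomb, ea, eb, h.hu n])
    (by
      intro s t
      rw [hcomb, h.hF]
      have h1 : ∏ n, (β n * (s * g₁ + t * g₃) - α n * (s * g₂ + t * g₄)) =
          ∏ n, (Δ * ((g₁ * β n - g₂ * α n) / Δ * s - (g₄ * α n - g₃ * β n) / Δ * t)) := by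
        refine Finset.prod_congr rfl fun n _ => ?_
        field_simp
        ring
      rw [h1, Finset.prod_mul_distrib, Finset.prod_const, Finset.card_univ, Fintype.card_fin]
      ring)
    m hm y₀ hy e₀ f₀ h0
    (by
      intro i
      have := hve i
      have he : chi 1 m (wt X.fac X.α (Sum.inl i)) * (g₁ • e + g₂ • f) i =
          g₁ * (chi 1 m (wt X.fac X.α (Sum.inl i)) * e i) +
            g₂ * (chi 1 m (wt X.fac X.α (Sum.inl i)) * f i) := by
        simp only [Pi.add_apply, Pi.smul_apply, smul_eq_mul]; ring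
      rw [he]; exact this)
    (by
      intro i
      have := hvf i
      have he : chi 1 m (wt X.fac X.α (Sum.inl i)) * (g₃ • e + g₄ • f) i =
          g₃ * (chi 1 m (wt X.fac X.α (Sum.inl i)) * e i) +
            g₄ * (chi 1 m (wt X.fac X.α (Sum.inl i)) * f i) := by
        simp only [Pi.add_apply, Pi.smul_apply, smul_eq_mul]; ring
      rw [he]; exact this)
    l hl p₀ hp hv
  refine ⟨v.ord Δ, ?_, ?_⟩
  · rintro i j hij ⟨r, s, hrs⟩
    have h1 := Place.val_sub (Place.val_mul (hα i) (hβ j)) (Place.val_mul (hα j) (hβ i))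
    have h2 : α₀ i * β₀ j - α₀ j * β₀ i ≠ 0 := by
      intro h3
      apply hrs
      rw [(hp₀ i).2, (hp₀ j).2]
      simp only [Pi.add_apply, Pi.smul_apply, smul_eq_mul]
      linear_combination (e₀ r * f₀ s - e₀ s * f₀ r) * h3
    have h3 := Place.ord_eq_zero_of_val h1 h2
    have h4 : l i * ((g₄ * α i - g₃ * β i) / Δ) * (l j * ((g₁ * β j - g₂ * α j) / Δ)) -
        l j * ((g₄ * α j - g₃ * β j) / Δ) * (l i * ((g₁ * β i - g₂ * α i) / Δ)) =
        l i * l j * (α i * β j - α j * β i) / Δ := by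
      field_simp
      rw [hΔ]
      ring
    rw [h4, Place.ord_div _ _ _ (mul_ne_zero (mul_ne_zero (hl i) (hl j)) hij) hg,
      v.ord_mul _ _ (mul_ne_zero (hl i) (hl j)) hij, v.ord_mul _ _ (hl i) (hl j)] at h3
    omega
  · by_cases hz : a₀ = 0
    · right
      intro n
      refine ⟨e₀, f₀, h0, ?_, ?_, fun _ => α₀ n, fun _ => β₀ n, 0, fun _ => hp₀ n, ?_⟩
      · exact A1_lam X v y m hm y₀ hy (g₁ • e + g₂ • f) e₀ (by
          intro i
          have := hve i
          have he : chi 1 m (wt X.fac X.α (Sum.inl i)) * (g₁ • e + g₂ • f) i =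
              g₁ * (chi 1 m (wt X.fac X.α (Sum.inl i)) * e i) +
                g₂ * (chi 1 m (wt X.fac X.α (Sum.inl i)) * f i) := by
            simp only [Pi.add_apply, Pi.smul_apply, smul_eq_mul]; ring
          rw [he]; exact this) (A1_lin X y e f h.he h.hf g₁ g₂)
      · exact A1_lam X v y m hm y₀ hy (g₃ • e + g₄ • f) f₀ (by
          intro i
          have := hvf i
          have he : chi 1 m (wt X.fac X.α (Sum.inl i)) * (g₃ • e + g₄ • f) i =
              g₃ * (chi 1 m (wt X.fac X.α (Sum.inl i)) * e i) +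
                g₄ * (chi 1 m (wt X.fac X.α (Sum.inl i)) * f i) := by
            simp only [Pi.add_apply, Pi.smul_apply, smul_eq_mul]; ring
          rw [he]; exact this) (A1_lin X y e f h.he h.hf g₃ g₄)
      · intro s t
        rw [hF₀ s t, hz, zero_mul, zero_mul]
    · left
      have h3 := Place.ord_eq_zero_of_val ha₀ hz
      have hc0 : chi (1 : K) m (((N : ℤ), X.β) : Deg S) ≠ 0 := chi_ne 1 m one_ne_zero hm _
      have hc1 : chi (1 : K) m (((N : ℤ), X.β) : Deg S) = chi 1 m ((0, X.β) : Deg S) := by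
        simp only [chi, one_zpow]
      have hsum : v.ord (∏ n, l n) = ∑ n, v.ord (l n) := A1_ordprod v l hl Finset.univ
      rw [Place.ord_div _ _ _ (mul_ne_zero hc0 (mul_ne_zero h.ha (pow_ne_zero _ hg))) hL,
        v.ord_mul _ _ hc0 (mul_ne_zero h.ha (pow_ne_zero _ hg)),
        v.ord_mul _ _ h.ha (pow_ne_zero _ hg), Place.ord_pow, hsum, hc1] at h3
      omega

end Pool.Agent.LibPN22
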