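import Mathlib

/-!
[PN22 A2] pure algebra in a rational vector space (only Mathlib). Plan:
fix `i`. Sum the relations `h1 i j v` over `j` and `v ∈ A`. The terms with `κ` vanish by `h3` (exchange the sums). What remains is
`∑_v [N l_i δ_i + (∑_j l_j) δ_i - N d δ_i - l_i ∑_j δ_j - ∑_j l_j δ_j + d ∑_j δ_j] = 0`, and `∑_j δ_j = 0` by `h0`. By `h2`:
`(∑_j l_j - N d) δ_i = (aa + b) δ_i`, and `∑_v aa δ_i = 0` by `h4`. So `∑_v (N l_i + b) δ_i = ∑_v ∑_j l_j δ_j`, which does not depend on `i`.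
-/

open scoped Classical
open MvPolynomial

set_option linter.unusedSectionVars false

namespace Pool.Agent.LibPN22

variable {N : ℕ}

private theorem alg_key {V ι : Type} [AddCommGroup V] [Module ℚ V] (A : Finset ι)
    (δ : Fin N → ι → V)
    (l : Fin N → ι → ℤ) (b d aa : ι → ℤ) (κ : Fin N → Fin N → ι → ℤ)
    (h0 : ∀ v ∈ A, ∑ n, δ n v = 0)
    (h1 : ∀ i j, ∀ v ∈ A, ((κ i j v + l i v + l j v - d v : ℤ) : ℚ) • (δ i v - δ j v) = 0)
    (h2 : ∀ i, ∀ v ∈ A, ((aa v + b v + N * d v - ∑ n, l n v : ℤ) : ℚ) • δ i v = 0)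
    (h3 : ∀ i j n, ∑ v ∈ A, (κ i j v : ℚ) • δ n v = 0)
    (h4 : ∀ i, ∑ v ∈ A, (aa v : ℚ) • δ i v = 0) (i : Fin N) :
    ∑ v ∈ A, ((N * l i v + b v : ℤ) : ℚ) • δ i v =
      ∑ v ∈ A, ∑ j, (l j v : ℚ) • δ j v := by
  have hp : ∀ v ∈ A, ((N * l i v + b v : ℤ) : ℚ) • δ i v =
      (∑ j, (l j v : ℚ) • δ j v) - (aa v : ℚ) • δ i v -
        (∑ j, (κ i j v : ℚ) • δ i v) + (∑ j, (κ i j v : ℚ) • δ j v) := by
    intro v hv
    have e1 : ∑ j, ((κ i j v + l i v + l j v - d v : ℤ) : ℚ) • (δ i v - δ j v) = 0 :=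
      Finset.sum_eq_zero (fun j _ => h1 i j v hv)
    have e2 : ∑ j, ((κ i j v + l i v + l j v - d v : ℤ) : ℚ) • (δ i v - δ j v) =
        (∑ j, (κ i j v : ℚ) • δ i v) - (∑ j, (κ i j v : ℚ) • δ j v) +
          ((N : ℚ) * (l i v : ℚ)) • δ i v - (l i v : ℚ) • (∑ j, δ j v) +
          (∑ j, (l j v : ℚ)) • δ i v - (∑ j, (l j v : ℚ) • δ j v) -
          ((N : ℚ) * (d v : ℚ)) • δ i v + (d v : ℚ) • (∑ j, δ j v) := by
      have hN : ∀ c : ℚ, ((N : ℚ) * c) • δ i v = ∑ _j : Fin N, c • δ i v := by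
        intro c
        rw [Finset.sum_const, Finset.card_univ, Fintype.card_fin, mul_smul, Nat.cast_smul_eq_nsmul]
      rw [hN, hN, Finset.smul_sum, Finset.smul_sum, Finset.sum_smul]
      simp only [← Finset.sum_sub_distrib, ← Finset.sum_add_distrib]
      refine Finset.sum_congr rfl (fun j _ => ?_)
      push_cast
      module
    rw [h0 v hv, smul_zero, smul_zero, sub_zero, add_zero] at e2
    have e3 := h2 i v hv
    have e4 : ((aa v + b v + N * d v - ∑ n, l n v : ℤ) : ℚ) • δ i v =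
        (aa v : ℚ) • δ i v + (b v : ℚ) • δ i v + ((N : ℚ) * (d v : ℚ)) • δ i v -
          (∑ n, (l n v : ℚ)) • δ i v := by
      push_cast
      module
    have e5 : ((N * l i v + b v : ℤ) : ℚ) • δ i v =
        ((N : ℚ) * (l i v : ℚ)) • δ i v + (b v : ℚ) • δ i v := by
      push_cast
      module
    rw [e5]
    rw [e2] at e1
    rw [e4] at e3
    have e6 : ((N : ℚ) * (l i v : ℚ)) • δ i v + (b v : ℚ) • δ i v =
        (∑ j, (l j v : ℚ) • δ j v) - (aa v : ℚ) • δ i v -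
        (∑ j, (κ i j v : ℚ) • δ i v) + (∑ j, (κ i j v : ℚ) • δ j v) +
        (((∑ j, (κ i j v : ℚ) • δ i v) - (∑ j, (κ i j v : ℚ) • δ j v) +
          ((N : ℚ) * (l i v : ℚ)) • δ i v +
          (∑ j, (l j v : ℚ)) • δ i v - (∑ j, (l j v : ℚ) • δ j v) -
          ((N : ℚ) * (d v : ℚ)) • δ i v) +
        ((aa v : ℚ) • δ i v + (b v : ℚ) • δ i v + ((N : ℚ) * (d v : ℚ)) • δ i v -
          (∑ n, (l n v : ℚ)) • δ i v)) := by abel
    rw [e6, e1, e3, add_zero, add_zero]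
  rw [Finset.sum_congr rfl hp, Finset.sum_add_distrib, Finset.sum_sub_distrib,
    Finset.sum_sub_distrib, h4 i]
  have k1 : ∑ v ∈ A, ∑ j, (κ i j v : ℚ) • δ i v = 0 := by
    rw [Finset.sum_comm]
    exact Finset.sum_eq_zero (fun j _ => h3 i j i)
  have k2 : ∑ v ∈ A, ∑ j, (κ i j v : ℚ) • δ j v = 0 := by
    rw [Finset.sum_comm]
    exact Finset.sum_eq_zero (fun j _ => h3 i j j)
  rw [k1, k2, sub_zero, sub_zero, add_zero]

/-- [A2] pure algebra -/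
theorem alg {V ι : Type} [AddCommGroup V] [Module ℚ V] (A : Finset ι) (δ : Fin N → ι → V)
    (l : Fin N → ι → ℤ) (b d aa : ι → ℤ) (κ : Fin N → Fin N → ι → ℤ)
    (h0 : ∀ v ∈ A, ∑ n, δ n v = 0)
    (h1 : ∀ i j, ∀ v ∈ A, ((κ i j v + l i v + l j v - d v : ℤ) : ℚ) • (δ i v - δ j v) = 0)
    (h2 : ∀ i, ∀ v ∈ A, ((aa v + b v + N * d v - ∑ n, l n v : ℤ) : ℚ) • δ i v = 0)
    (h3 : ∀ i j n, ∑ v ∈ A, (κ i j v : ℚ) • δ n v = 0)
    (h4 : ∀ i, ∑ v ∈ A, (aa v : ℚ) • δ i v = 0) (i j : Fin N) :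
    ∑ v ∈ A, ((N * l i v + b v : ℤ) : ℚ) • δ i v =
      ∑ v ∈ A, ((N * l j v + b v : ℤ) : ℚ) • δ j v := by
  rw [alg_key A δ l b d aa κ h0 h1 h2 h3 h4 i, alg_key A δ l b d aa κ h0 h1 h2 h3 h4 j]

end Pool.Agent.LibPN22
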