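import Pool.Agent.LibPN22.A1
import Pool.Agent.LibPN22.A2
import Pool.Agent.LibPN22.A3
import Pool.Agent.LibPC60.B3
import Pool.Agent.LibPC60.B4
import Pool.Agent.LibPC60.D4
import Pool.Agent.LibPC60.D5

/-!
[PN22 A4] the class of the normal bundle on two points of a tuple. Plan:
Values: for every `v` take `y₀, m v` and the values of the base coordinates from `exists_sp` (B4) for `u i`, and `exists_normX` (B3) for every `u n` with this
`m v` and `y₀`: `p n v, l n v` with `Sp v (u n) (p n v) (l n v) (m v)` and all `p n v` over the same base point. `loc` (A1) at every `v` gives `d v`. Put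
`δ n v = del ζ (p n v)`, `κ i j v = v.ord (α i β j - α j β i)`, `aa v = v.ord a`, `b v = v.ord (chi 1 (m v) (0, β))`,
`A` any finite set containing the supports of `a` and of all `α i β j - α j β i` (`Val8.sum_formula`). Apply `alg` (A2):
`h0`: `tri_lim` (D4) for the tuple, `hζ`: `∑ cl (pt (p n v)) = cl ζ`, so `∑ δ = N cl ζ - N cl ζ = 0`.
`h1`: if `α i β j - α j β i = 0` then `u i`, `u j` are proportional, their values are proportional and `pt (p i v) = pt (p j v)` by `pt_eq_of_prop` (D5; the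
values: from `l i u i`, `l j u j` by `Place.val_mul`, `val_unique`), so `δ i v = δ j v`. Otherwise either the values are proportional (again `δ i v = δ j v`, D5) or
the integer is `0` by `loc`.
`h2`: the integer is zero by `loc`, or `Tri X y₀ (fun _ => p n v)` for all `n`, and `hζ` for the constant tuple gives `N cl (pt (p n v)) = cl ζ`, `δ n v = 0`.
`h3`, `h4`: `sum_del` (A3) (for `f = 0`: `v.ord 0 = 0`).
`N * v.ord (l n v) + b v = v.ord (chi (l n v) (m v) (NN X))` (`chi_add`/`ord_chi`, A1 of PC60). So the sums of `Van` for `u i` and `u j` agree, and `van_of`.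
-/

open scoped Classical
open MvPolynomial

set_option linter.unusedSectionVars false

namespace Pool.Agent.LibPN22

open Pool.Agent.LibBH2 Pool.Agent.LibQC8 Pool.Agent.LibPC60

variable {k J S : Type} [Field k] [IsAlgClosed k] {c N : ℕ} [Fintype J] [Fintype S]
  {K : Type} [Field K] [Algebra k K]

private theorem a4_tri {X : Fam k J S c N} {y : J → K} {e f : Fin (c + N) → K} {α β : Fin N → K}
    {a : K} {u : Fin N → Fin (c + N) → K} (h : TupW X y e f α β a u) : Tri X y u :=
  ⟨e, f, h.ind, h.he, h.hf, α, β, a, fun n => ⟨h.ab n, h.hu n⟩, h.hF⟩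

private theorem a4_minor {X : Fam k J S c N} {y : J → K} {e f : Fin (c + N) → K} {α β : Fin N → K}
    {a : K} {u : Fin N → Fin (c + N) → K} (h : TupW X y e f α β a u) (i j : Fin N)
    (h0 : α i * β j - α j * β i = 0) (r s : Fin (c + N)) :
    u i r * u j s - u i s * u j r = 0 := by
  have h1 : ∀ n t, u n t = α n * e t + β n * f t := by
    intro n t
    rw [h.hu n]
    rfl
  rw [h1, h1, h1, h1]
  linear_combination (e r * f s - e s * f r) * h0

private theorem a4_vals {X : Fam k J S c N} {v : Place k K} {u u' : Pt X K} {p p' : Pt X k}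
    {l l' : K} {m : S → K} (h : Sp v u p l m) (h' : Sp v u' p' l' m) (r s : Fin (c + N))
    (h0 : u.z (Sum.inl r) * u'.z (Sum.inl s) - u.z (Sum.inl s) * u'.z (Sum.inl r) = 0) :
    p.z (Sum.inl r) * p'.z (Sum.inl s) - p.z (Sum.inl s) * p'.z (Sum.inl r) = 0 := by
  have h1 := Place.val_sub (Place.val_mul (h.val (Sum.inl r)) (h'.val (Sum.inl s)))
    (Place.val_mul (h.val (Sum.inl s)) (h'.val (Sum.inl r)))
  have h2 : chi l m (wt X.fac X.α (Sum.inl r)) * u.z (Sum.inl r) *
      (chi l' m (wt X.fac X.α (Sum.inl s)) * u'.z (Sum.inl s)) -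
      chi l m (wt X.fac X.α (Sum.inl s)) * u.z (Sum.inl s) *
      (chi l' m (wt X.fac X.α (Sum.inl r)) * u'.z (Sum.inl r)) = 0 := by
    rw [chi_wt_inl X.fac X.α l, chi_wt_inl X.fac X.α l', chi_wt_inl X.fac X.α l,
      chi_wt_inl X.fac X.α l']
    linear_combination (l * chi 1 m (wt X.fac X.α (Sum.inl r)) *
      (l' * chi 1 m (wt X.fac X.α (Sum.inl s)))) * h0
  rw [h2] at h1
  have h3 : v.Zer ((0 : K) - algebraMap k K 0) := by
    rw [map_zero, sub_zero]
    exact Place.zer_zero v
  exact Place.val_unique h1 h3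

private theorem a4_del {X : Fam k J S c N} {ζ : Cyc X} (q : Fin N → Pt X k)
    (h : ∑ n, cl (pt (q n)) = cl ζ) : ∑ n, del ζ (q n) = 0 := by
  unfold del
  rw [Finset.sum_sub_distrib, ← Finset.smul_sum, h, Finset.sum_const, Finset.card_univ,
    Fintype.card_fin, ← Nat.cast_smul_eq_nsmul ℚ, sub_self]

private theorem a4_ord (X : Fam k J S c N) (v : Place k K) (l : K) (m : S → K) (hl : l ≠ 0)
    (hm : ∀ t, m t ≠ 0) : v.ord (chi l m (NN X)) =
      N * v.ord l + v.ord (chi 1 m ((0, X.β) : Deg S)) := by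
  rw [ord_chi v l m hl hm, ord_chi v 1 m one_ne_zero hm]
  show (N : ℤ) * v.ord l + ∑ t, X.β t * v.ord (m t) =
    N * v.ord l + ((0 : ℤ) * v.ord 1 + ∑ t, X.β t * v.ord (m t))
  ring

/-- [A4] the class of the normal bundle on two points of a tuple -/
theorem van_tuple (X : Fam k J S c N) (hK : IsFunctionField k K) (ζ : Cyc X) (hζ : IsZ X ζ)
    (y : BPt X K) (e f : Fin (c + N) → K) (α β : Fin N → K) (a : K) (u : Fin N → Pt X K)
    (hy : ∀ n j, (u n).z (Sum.inr j) = y.y j)
    (h : TupW X y.y e f α β a (fun n i => (u n).z (Sum.inl i))) (i j : Fin N)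
    (hv : Van X ζ (NN X) (u j)) : Van X ζ (NN X) (u i) := by
  have hex : ∀ v : Place k K, ∃ (m : S → K) (y₀ : BPt X k), (∀ t, m t ≠ 0) ∧
      ∀ j, v.Zer (m (X.fac j) * y.y j - algebraMap k K (y₀.y j)) := by
    intro v
    obtain ⟨p, l, m, hs⟩ := exists_sp X hK v (u i)
    refine ⟨m, ⟨fun j => p.z (Sum.inr j), p.y_ne, p.hE⟩, hs.m_ne, fun j => ?_⟩
    have h1 := hs.val (Sum.inr j)
    rw [chi_wt_inr, hy i j] at h1
    exact h1
  choose m y₀ hm hy0 using hex
  have hex2 : ∀ (n : Fin N) (v : Place k K), ∃ (l : K) (p : Pt X k),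
      (∀ j, p.z (Sum.inr j) = (y₀ v).y j) ∧ Sp v (u n) p l (m v) := by
    intro n v
    exact exists_normX X hK v (u n) (m v) (hm v) (y₀ v) (fun j => by rw [hy n j]; exact hy0 v j)
  choose l p hpy hsp using hex2
  have hne : ∀ n v, (fun t => (p n v).z (Sum.inl t)) ≠ 0 := by
    intro n v h0
    obtain ⟨t, ht⟩ := (p n v).x_ne
    exact ht (congrFun h0 t)
  have hloc : ∀ v : Place k K, ∃ d : ℤ, (∀ i j, α i * β j - α j * β i ≠ 0 →
        (∃ r s, (p i v).z (Sum.inl r) * (p j v).z (Sum.inl s) -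
          (p i v).z (Sum.inl s) * (p j v).z (Sum.inl r) ≠ 0) →
        v.ord (α i * β j - α j * β i) + v.ord (l i v) + v.ord (l j v) = d) ∧
      (v.ord a + v.ord (chi 1 (m v) ((0, X.β) : Deg S)) + N * d = ∑ n, v.ord (l n v) ∨
        ∀ n, Tri X (y₀ v).y (fun _ t => (p n v).z (Sum.inl t))) := fun v =>
    loc X hK v y.y e f α β a _ h (m v) (hm v) (y₀ v).y (hy0 v) (fun n => l n v)
      (fun n => (hsp n v).l_ne) (fun n t => (p n v).z (Sum.inl t)) (fun n => hne n v)
      (fun n t => (hsp n v).val (Sum.inl t))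
  choose d hd1 hd2 using hloc
  -- the finite set
  have hfa : {v : Place k K | v.ord a ≠ 0}.Finite :=
    (Pool.Agent.LibEnd77.Val8.sum_formula hK a).1
  have hfk : ∀ q : Fin N × Fin N, {v : Place k K | v.ord (α q.1 * β q.2 - α q.2 * β q.1) ≠ 0}.Finite :=
    fun q => (Pool.Agent.LibEnd77.Val8.sum_formula hK _).1
  have hfj := finite_ord X hK (u j) (p j) (l j) m (hsp j) (NN X)
  refine van_of X hK ζ (NN X) (u i) (p i) (l i) m (hsp i)
    (hfj.toFinset ∪ hfa.toFinset ∪ Finset.univ.biUnion fun q => (hfk q).toFinset) ?_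
  intro A hA
  have hAj : ∀ v, v.ord (chi (l j v) (m v) (NN X)) ≠ 0 → v ∈ A := by
    intro v hv1
    apply hA
    rw [Finset.mem_union, Finset.mem_union]
    exact Or.inl (Or.inl (hfj.mem_toFinset.2 hv1))
  have hAa : ∀ v : Place k K, v.ord a ≠ 0 → v ∈ A := by
    intro v hv1
    apply hA
    rw [Finset.mem_union, Finset.mem_union]
    exact Or.inl (Or.inr (hfa.mem_toFinset.2 hv1))
  have hAk : ∀ (n n' : Fin N) (v : Place k K), v.ord (α n * β n' - α n' * β n) ≠ 0 → v ∈ A := by
    intro n n' v hv1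
    apply hA
    rw [Finset.mem_union, Finset.mem_biUnion]
    exact Or.inr ⟨(n, n'), Finset.mem_univ _, (hfk (n, n')).mem_toFinset.2 hv1⟩
  have halg := alg A (fun n v => del ζ (p n v)) (fun n v => v.ord (l n v))
    (fun v => v.ord (chi 1 (m v) ((0, X.β) : Deg S))) d (fun v => v.ord a)
    (fun n n' v => v.ord (α n * β n' - α n' * β n))
    (by
      intro v _
      refine a4_del (fun n => p n v) (hζ (y₀ v) (fun n => p n v) (fun n t => hpy n v t) ?_)
      exact tri_lim X hK v y.y _ (a4_tri h) (m v) (hm v) (y₀ v).y (hy0 v) (fun n => l n v)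
        (fun n => (hsp n v).l_ne) (fun n t => (p n v).z (Sum.inl t)) (fun n => hne n v)
        (fun n t => (hsp n v).val (Sum.inl t)))
    (by
      intro n n' v _
      by_cases hprop : ∃ r s, (p n v).z (Sum.inl r) * (p n' v).z (Sum.inl s) -
          (p n v).z (Sum.inl s) * (p n' v).z (Sum.inl r) ≠ 0
      · have hnz : α n * β n' - α n' * β n ≠ 0 := by
          intro h0
          obtain ⟨r, s, hrs⟩ := hprop
          exact hrs (a4_vals (hsp n v) (hsp n' v) r s (a4_minor h n n' h0 r s))
        have h1 := hd1 v n n' hnz hprop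
        rw [h1, sub_self, Int.cast_zero, zero_smul]
      · push Not at hprop
        have h1 : pt (p n v) = pt (p n' v) := pt_eq_of_prop X _ _
          (fun t => by rw [hpy n v t, hpy n' v t]) hprop
        have h2 : del ζ (p n v) = del ζ (p n' v) := by
          unfold del
          rw [h1]
        rw [h2, sub_self, smul_zero])
    (by
      intro n v _
      rcases hd2 v with h1 | h1
      · rw [h1, sub_self, Int.cast_zero, zero_smul]
      · have h2 := hζ (y₀ v) (fun _ => p n v) (fun _ t => hpy n v t) (h1 n)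
        have h3 : del ζ (p n v) = 0 := by
          unfold del
          rw [Finset.sum_const, Finset.card_univ, Fintype.card_fin,
            ← Nat.cast_smul_eq_nsmul ℚ] at h2
          rw [h2, sub_self]
        rw [h3, smul_zero])
    (by
      intro n n' n''
      by_cases h0 : α n * β n' - α n' * β n = 0
      · rw [h0]
        refine Finset.sum_eq_zero fun v _ => ?_
        rw [v.ord_zero, Int.cast_zero, zero_smul]
      · exact sum_del X hK ζ (u n'') (p n'') (fun v => ⟨_, _, hsp n'' v⟩) _ h0 A (hAk n n'))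
    (fun n => sum_del X hK ζ (u n) (p n) (fun v => ⟨_, _, hsp n v⟩) _ h.ha A hAa) i j
  have h5 := hv (p j) (l j) m (hsp j) A hAj
  have h6 : ∀ n, ∑ v ∈ A, (v.ord (chi (l n v) (m v) (NN X)) : ℚ) • del ζ (p n v) =
      ∑ v ∈ A, ((N * v.ord (l n v) + v.ord (chi 1 (m v) ((0, X.β) : Deg S)) : ℤ) : ℚ) •
        del ζ (p n v) := by
    intro n
    refine Finset.sum_congr rfl fun v _ => ?_
    rw [a4_ord X v (l n v) (m v) (hsp n v).l_ne (hm v)]
  rw [h6 j] at h5
  rw [h6 i]
  exact halg.trans h5

end Pool.Agent.LibPN22
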