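import Pool.Agent.LibPN22.Defs
import Pool.Agent.LibEnd77.V3

/-!
[PN22 B1] places in an extension of function fields. Plan:
make `L` a `K`-algebra by `i` (`i.toRingHom.toAlgebra`, `IsScalarTower k K L`). `L` is finite over `K`: `L` is finite over `k(i s)`, `s` the transcendental element of `hK`
(`Pool.Agent.LibEnd77.Val8.finite_adjoin hL`); separable in characteristic zero. `ρ w` from `Pool.Agent.LibEnd77.exists_spec` (V2.lean), `e w` from `spec_ord` (V2.lean: the order of `i x` is a positive
multiple of the order of `x`), `W` from `Pool.Agent.LibEnd77.sum_formula hK hL v` (V3.lean; membership: `spec_unique`), `n = Module.finrank K L`; the sum: the formula for `φ` with `v.ord φ = 1`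
(`v.exists_uniformizer`).
-/

open scoped Classical
open MvPolynomial

set_option linter.unusedSectionVars false

namespace Pool.Agent.LibPN22

open Pool.Agent.LibBH2 Pool.Agent.LibQC8 Pool.Agent.LibPC60

variable {k J S : Type} [Field k] [IsAlgClosed k] {c N : ℕ} [Fintype J] [Fintype S]
  {K : Type} [Field K] [Algebra k K]

/-- [B1] places in an extension of function fields -/
theorem places_above [CharZero k] {L : Type} [Field L] [Algebra k L] (hK : IsFunctionField k K)
    (hL : IsFunctionField k L) (i : K →ₐ[k] L) :
    ∃ (n : ℕ) (ρ : Place k L → Place k K) (e : Place k L → ℤ), 0 < n ∧ (∀ w, 0 < e w) ∧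
      (∀ w x, w.ord (i x) = e w * (ρ w).ord x) ∧
      ∀ v, ∃ W : Finset (Place k L), (∀ w, w ∈ W ↔ ρ w = v) ∧ ∑ w ∈ W, e w = n := by
  let _ : Algebra K L := i.toRingHom.toAlgebra
  have hmap : ∀ x : K, algebraMap K L x = i x := fun _ => rfl
  have : IsScalarTower k K L := IsScalarTower.of_algebraMap_eq fun x => by
    rw [hmap, AlgHom.commutes]
  have hfin : FiniteDimensional K L := by
    obtain ⟨s, hs, -⟩ := hK
    have hs' : Transcendental k (i s) := by
      intro h
      exact hs ((isAlgebraic_algHom_iff i i.toRingHom.injective).1 h)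
    have h1 : FiniteDimensional (IntermediateField.adjoin k {i s}) L :=
      Pool.Agent.LibEnd77.Val8.finite_adjoin hL hs'
    have hle : IntermediateField.adjoin k {i s} ≤ i.fieldRange := by
      rw [IntermediateField.adjoin_le_iff]
      rintro _ rfl
      exact ⟨s, rfl⟩
    have h2 : ((algebraMap i.fieldRange L).comp
        (IntermediateField.inclusion hle).toRingHom).Finite := by
      have h3 : (algebraMap i.fieldRange L).comp (IntermediateField.inclusion hle).toRingHom =
          algebraMap (IntermediateField.adjoin k {i s}) L := by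
        ext x
        rfl
      rw [h3]
      exact RingHom.finite_algebraMap.2 h1
    have h4 : (algebraMap i.fieldRange L).Finite := RingHom.Finite.of_comp_finite h2
    have h5 : i.rangeRestrict.toRingHom.Finite :=
      RingHom.Finite.of_surjective _ i.rangeRestrict_surjective
    have h6 : i.toRingHom.Finite := h4.comp h5
    exact h6
  have : CharZero K := charZero_of_injective_algebraMap (algebraMap k K).injective
  have : Algebra.IsSeparable K L := inferInstance
  choose ρ hρ using fun w : Place k L => Pool.Agent.LibEnd77.exists_spec hK hL i w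
  choose e he0 he using fun w : Place k L => Pool.Agent.LibEnd77.spec_ord (hρ w)
  refine ⟨Module.finrank K L, ρ, e, Module.finrank_pos, he0, he, fun v => ?_⟩
  obtain ⟨W, -, hW, hsum⟩ := Pool.Agent.LibEnd77.sum_formula hK hL v
  have hmem : ∀ w, w ∈ W ↔ ρ w = v := by
    intro w
    rw [hW]
    constructor
    · intro h
      exact Pool.Agent.LibEnd77.spec_unique (hρ w) h
    · rintro rfl
      exact hρ w
  refine ⟨W, hmem, ?_⟩
  obtain ⟨φ, hφ⟩ := v.exists_uniformizer
  have h1 := hsum φ
  rw [hφ, mul_one] at h1
  rw [← h1]
  refine Finset.sum_congr rfl fun w hw => ?_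
  rw [hmap, he w, (hmem w).1 hw, hφ, mul_one]

end Pool.Agent.LibPN22
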