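import Pool.Agent.LibPC60.RowDefs
import Pool.Agent.LibPC60.C5

/-!
[PN22 C1] expansion of `F(s x + t w)` in forms in `w`. Plan:
`P : MvPolynomial (Fin (c + N)) K := aeval (Sum.elim (fun i => C (x i) + X i) (fun j => C (y j))) X.F` (as a `k`-algebra map), `G n = homogeneousComponent n P`.
`eval w P = F(x + w)`. `binary_form` (PC60 C5) for the vectors `x, w` gives `a n` with `F(s x + t w) = ∑ a n s^(N-n) t^n` (use it for `L = K`, `i = AlgHom.id`).
For `s = 1`: `∑_n eval w (G n) t^n = eval (t • w) P = F(x + t w) = ∑_n a n t^n` for all `t` (the sum on the left over `n ≤ totalDegree P`); `K` is infinite, so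
`eval w (G n) = a n` for `n ≤ N`.
-/

open scoped Classical
open MvPolynomial

set_option linter.unusedSectionVars false

namespace Pool.Agent.LibPN22

open Pool.Agent.LibBH2 Pool.Agent.LibQC8 Pool.Agent.LibPC60

variable {k J S : Type} [Field k] {c N : ℕ}
  {K : Type} [Field K] [Algebra k K]

private lemma C1_eval_smul {σ : Type} (P : MvPolynomial σ K) (n : ℕ) (hP : P.IsHomogeneous n)
    (t : K) (w : σ → K) : eval (t • w) P = t ^ n * eval w P := by
  rw [eval_eq, eval_eq, Finset.mul_sum]
  refine Finset.sum_congr rfl fun d hd => ?_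
  have h1 : d.degree = n := by
    have h2 : (Finsupp.weight 1) d = n := hP (mem_support_iff.mp hd)
    have h4 : d.degree = (Finsupp.weight (fun _ => 1 : σ → ℕ)) d :=
      DFunLike.congr_fun Finsupp.degree_eq_weight_one d
    rw [h4]
    exact h2
  have h3 : ∏ i ∈ d.support, (t • w) i ^ d i = t ^ n * ∏ i ∈ d.support, w i ^ d i := by
    simp only [Pi.smul_apply, smul_eq_mul, mul_pow, Finset.prod_mul_distrib]
    congr 1
    rw [Finset.prod_pow_eq_pow_sum, ← h1]
    rfl
  rw [h3]
  ring

private lemma C1_eval_P (X : Fam k J S c N) (y : J → K) (x w : Fin (c + N) → K) :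
    eval w (aeval (Sum.elim (fun i => C (x i) + MvPolynomial.X i) (fun j => C (y j))) X.F :
      MvPolynomial (Fin (c + N)) K) = aeval (Sum.elim (x + w) y) X.F := by
  have h1 : ((MvPolynomial.aeval w : MvPolynomial (Fin (c + N)) K →ₐ[K] K).restrictScalars k).comp
      (aeval (Sum.elim (fun i => C (x i) + MvPolynomial.X i) (fun j => C (y j))) :
        MvPolynomial (Fin (c + N) ⊕ J) k →ₐ[k] MvPolynomial (Fin (c + N)) K) =
      aeval (Sum.elim (x + w) y) := by
    refine MvPolynomial.algHom_ext fun i => ?_
    rcases i with i | j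
    · simp
    · simp
  have h2 := DFunLike.congr_fun h1 X.F
  rw [← h2]
  rw [AlgHom.comp_apply, AlgHom.restrictScalars_apply, MvPolynomial.aeval_eq_eval]

/-- [C1] expansion of `F(s x + t w)` in forms in `w` -/
theorem expand [Infinite K] (X : Fam k J S c N) (y : J → K) (x : Fin (c + N) → K) :
    ∃ G : Fin (N + 1) → MvPolynomial (Fin (c + N)) K, (∀ n, (G n).IsHomogeneous (n : ℕ)) ∧
      ∀ (w : Fin (c + N) → K) (s t : K), aeval (Sum.elim (s • x + t • w) y) X.F =
        ∑ n : Fin (N + 1), eval w (G n) * s ^ (N - (n : ℕ)) * t ^ (n : ℕ) := by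
  set P : MvPolynomial (Fin (c + N)) K :=
    aeval (Sum.elim (fun i => C (x i) + MvPolynomial.X i) (fun j => C (y j))) X.F with hP
  refine ⟨fun n => homogeneousComponent (n : ℕ) P, fun n =>
    homogeneousComponent_isHomogeneous _ _, fun w s t => ?_⟩
  obtain ⟨a, ha⟩ := binary_form X y x w
  have ha' : ∀ s t : K, aeval (Sum.elim (s • x + t • w) y) X.F =
      ∑ n : Fin (N + 1), a n * s ^ (N - (n : ℕ)) * t ^ (n : ℕ) := fun s t =>
    ha K (AlgHom.id k K) s t
  have hpoly : ∑ n ∈ Finset.range (P.totalDegree + 1),
      Polynomial.C (eval w (homogeneousComponent n P)) * Polynomial.X ^ n =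
      ∑ n : Fin (N + 1), Polynomial.C (a n) * Polynomial.X ^ (n : ℕ) := by
    refine Polynomial.funext fun t => ?_
    rw [Polynomial.eval_finset_sum, Polynomial.eval_finset_sum]
    have h1 := ha' 1 t
    rw [one_smul, ← C1_eval_P X y x (t • w), ← hP] at h1
    have h2 : eval (t • w) P = ∑ n ∈ Finset.range (P.totalDegree + 1),
        t ^ n * eval w (homogeneousComponent n P) := by
      conv_lhs => rw [← sum_homogeneousComponent P]
      rw [map_sum]
      exact Finset.sum_congr rfl fun n _ =>
        C1_eval_smul _ n (homogeneousComponent_isHomogeneous _ _) t w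
    rw [h2] at h1
    simp only [Polynomial.eval_mul, Polynomial.eval_C, Polynomial.eval_pow, Polynomial.eval_X]
    calc ∑ n ∈ Finset.range (P.totalDegree + 1), eval w (homogeneousComponent n P) * t ^ n
        = ∑ n ∈ Finset.range (P.totalDegree + 1), t ^ n * eval w (homogeneousComponent n P) :=
          Finset.sum_congr rfl fun n _ => mul_comm _ _
      _ = _ := by
          rw [h1]
          refine Finset.sum_congr rfl fun n _ => ?_
          rw [one_pow, mul_one]
  have hcoef : ∀ n : Fin (N + 1), eval w (homogeneousComponent (n : ℕ) P) = a n := by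
    intro n
    have h1 := congrArg (fun p => Polynomial.coeff p (n : ℕ)) hpoly
    simp only [Polynomial.finset_sum_coeff, Polynomial.coeff_C_mul_X_pow] at h1
    rw [Finset.sum_ite_eq] at h1
    have h2 : (∑ b : Fin (N + 1), if (n : ℕ) = (b : ℕ) then a b else 0) = a n := by
      rw [Finset.sum_eq_single n]
      · simp
      · intro b _ hb
        rw [if_neg]
        intro h
        exact hb (Fin.ext h.symm)
      · intro h
        exact absurd (Finset.mem_univ n) h
    rw [h2] at h1
    rw [← h1]
    split_ifs with h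
    · rfl
    · rw [Finset.mem_range, not_lt] at h
      rw [homogeneousComponent_eq_zero _ _ (by omega), map_zero]
  rw [ha']
  exact Finset.sum_congr rfl fun n _ => by rw [hcoef n]

end Pool.Agent.LibPN22
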