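import Pool.Agent.LibPN22.C1
import Pool.Agent.LibPC60.C4
import Pool.Agent.LibHPF.Q4

/-!
[PN22 C2] lines of contact `N - 1`. Plan:
`Pool.Agent.LibHP.exists_zero_of_lt Ω (Fin (c + N)) ι` with the `c + (N - 1)` forms: `Λ_j(·, y)` (linear forms: `∑_i C (aeval (Sum.elim (Pi.single i 1) y) (X.Λ j)) * X i`, whose value
at `w` is `aeval (Sum.elim w y) (X.Λ j)` by `lam_lin`), the forms `G 1, .., G (N - 2)` of `expand` (C1), and the form `X i₀` with `x i₀ ≠ 0`. The zero `w ≠ 0` has
`w i₀ = 0`, so `x, w` are independent. In `F(s x + t w) = ∑_n G_n(w) s^(N-n) t^n` the terms `n = 0` (it is `F(x) = 0`: put `s = 1, t = 0`) and `1 ≤ n ≤ N - 2` vanish;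
`A = G_(N-1)(w)`, `B = G_N(w)`.
-/

open scoped Classical
open MvPolynomial

set_option linter.unusedSectionVars false

namespace Pool.Agent.LibPN22

open Pool.Agent.LibBH2 Pool.Agent.LibQC8 Pool.Agent.LibPC60

variable {k J S : Type} [Field k] [IsAlgClosed k] {c N : ℕ} [Fintype J] [Fintype S]
  {K : Type} [Field K] [Algebra k K]

/-- [C2] lines of contact `N - 1` -/
theorem contact {Ω : Type} [Field Ω] [Algebra k Ω] [IsAlgClosed Ω] (X : Fam k J S c N)
    (hN : 2 ≤ N) (y : J → Ω) (x : Fin (c + N) → Ω) (hx : x ≠ 0)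
    (hΛ : ∀ j, aeval (Sum.elim x y) (X.Λ j) = 0) (hF : aeval (Sum.elim x y) X.F = 0) :
    ∃ (w : Fin (c + N) → Ω) (A B : Ω), LinearIndependent Ω ![x, w] ∧
      (∀ j, aeval (Sum.elim w y) (X.Λ j) = 0) ∧
      ∀ s t, aeval (Sum.elim (s • x + t • w) y) X.F = t ^ (N - 1) * (A * s + B * t) := by
  obtain ⟨M, rfl⟩ : ∃ M, N = M + 2 := ⟨N - 2, by omega⟩
  have : Infinite Ω := IsAlgClosed.instInfinite
  obtain ⟨G, hG, hexp⟩ := expand X y x
  obtain ⟨i₀, hi₀⟩ : ∃ i, x i ≠ 0 := by
    by_contra h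
    push Not at h
    exact hx (funext h)
  obtain ⟨Lf, hLf⟩ : ∃ Lf : Fin c → MvPolynomial (Fin (c + (M + 2))) Ω, ∀ j, Lf j =
      ∑ i, MvPolynomial.C (aeval (Sum.elim (0 : Fin (c + (M + 2)) → Ω) y) (pderiv (Sum.inl i) (X.Λ j))) *
        MvPolynomial.X i := ⟨_, fun j => rfl⟩
  have hLh : ∀ j, (Lf j).IsHomogeneous 1 := by
    intro j
    rw [hLf]
    exact IsHomogeneous.sum _ _ _ fun i _ => isHomogeneous_C_mul_X _ _
  have hLe : ∀ j w, eval w (Lf j) = aeval (Sum.elim w y) (X.Λ j) := by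
    intro j w
    rw [hLf, map_sum, lam_lin X j w 0 y]
    refine Finset.sum_congr rfl fun i _ => ?_
    rw [map_mul, eval_C, eval_X, mul_comm]
  obtain ⟨w, hw0, hw⟩ := Pool.Agent.LibHP.exists_zero_of_lt Ω (Fin (c + (M + 2))) (Fin c ⊕ (Fin M ⊕ Unit))
    (by
      rw [Fintype.card_sum, Fintype.card_sum, Fintype.card_fin, Fintype.card_fin, Fintype.card_fin,
        Fintype.card_unit]
      omega)
    (Sum.elim Lf (Sum.elim (fun n => G ⟨(n : ℕ) + 1, by omega⟩) (fun _ => MvPolynomial.X i₀)))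
    (Sum.elim (fun _ => 1) (Sum.elim (fun n => (n : ℕ) + 1) (fun _ => 1)))
    (by
      rintro (j | n | u)
      · exact Nat.one_pos
      · exact Nat.succ_pos _
      · exact Nat.one_pos)
    (by
      rintro (j | n | u)
      · exact hLh j
      · exact hG ⟨(n : ℕ) + 1, by omega⟩
      · exact isHomogeneous_X Ω i₀)
  have hwL : ∀ j, aeval (Sum.elim w y) (X.Λ j) = 0 := by
    intro j
    rw [← hLe]
    exact hw (Sum.inl j)
  have hwG : ∀ n : Fin M, eval w (G ⟨(n : ℕ) + 1, by omega⟩) = 0 := fun n => hw (Sum.inr (Sum.inl n))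
  have hwi : w i₀ = 0 := by
    have h := hw (Sum.inr (Sum.inr ()))
    rw [Sum.elim_inr, Sum.elim_inr, eval_X] at h
    exact h
  have hG0 : eval w (G 0) = 0 := by
    have h := hexp w 1 0
    rw [one_smul, zero_smul, add_zero, hF] at h
    rw [Fin.sum_univ_succ, Finset.sum_eq_zero] at h
    · rw [add_zero, one_pow, mul_one, Fin.val_zero, pow_zero, mul_one] at h
      exact h.symm
    · intro n _
      rw [Fin.val_succ, zero_pow (Nat.succ_ne_zero _), mul_zero]
  refine ⟨w, eval w (G (Fin.castSucc (Fin.last (M + 1)))), eval w (G (Fin.last (M + 2))), ?_, hwL, ?_⟩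
  · rw [LinearIndependent.pair_iff]
    intro s t h
    have h1 := congrFun h i₀
    rw [Pi.add_apply, Pi.smul_apply, Pi.smul_apply, hwi, smul_zero, add_zero, Pi.zero_apply,
      smul_eq_mul] at h1
    have hs : s = 0 := (mul_eq_zero.1 h1).resolve_right hi₀
    rw [hs, zero_smul, zero_add] at h
    exact ⟨hs, (smul_eq_zero.1 h).resolve_right hw0⟩
  · intro s t
    rw [hexp w s t, Fin.sum_univ_castSucc, Fin.sum_univ_castSucc, Finset.sum_eq_zero, zero_add]
    · rw [Fin.val_last, Fin.val_castSucc, Fin.val_last]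
      have e1 : M + 2 - (M + 1) = 1 := by omega
      have e2 : M + 2 - (M + 2) = 0 := by omega
      have e3 : M + 2 - 1 = M + 1 := by omega
      rw [e1, e2, e3]
      ring
    · intro n _
      have h : eval w (G (Fin.castSucc (Fin.castSucc n))) = 0 := by
        rcases Nat.eq_zero_or_pos (n : ℕ) with h0 | h0
        · have h1 : Fin.castSucc (Fin.castSucc n) = 0 := by
            apply Fin.ext
            rw [Fin.val_castSucc, Fin.val_castSucc, h0]
            rfl
          rw [h1, hG0]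
        · have hn := n.2
          have h1 := hwG ⟨(n : ℕ) - 1, by omega⟩
          have h2 : Fin.castSucc (Fin.castSucc n) = ⟨(n : ℕ) - 1 + 1, by omega⟩ := by
            apply Fin.ext
            rw [Fin.val_castSucc, Fin.val_castSucc]
            show (n : ℕ) = (n : ℕ) - 1 + 1
            omega
          rw [h2]
          exact h1
      rw [h, zero_mul, zero_mul]

end Pool.Agent.LibPN22
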