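import Pool.Agent.LibPN22.C2
import Pool.Agent.LibPN22.C3
import Pool.Agent.LibPN22.Defs

/-!
[PN22 C4] the line of contact `N - 1` over a finite extension, and the residual point. Plan:
`contact` (C2) over `Ω = AlgebraicClosure K` for `y = algebraMap ∘ u.z ∘ inr`, `x = algebraMap ∘ u.z ∘ inl` (`aeval` commutes with the `k`-algebra map `K → Ω`:
`aeval_map`). `exists_sub` (C3) for the coordinates of `w`, `A`, `B`. Over `L` (`φ` is injective and commutes with `aeval`): `x' = i x`, `w'` independent,
`F(s x' + t w') = t^(N-1) (A' s + B' t)`, `Λ_j(w') = 0`.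
If `A' = 0`: `TriW` with `e = x', f = w'`, all `α = 1`, `β = 0`, constant `(-1)^N B'`: left alternative.
If `A' ≠ 0`: `q = B' x' - A' w'`, `F(q) = (-A')^(N-1) (A' B' - B' A') = 0`, `q ≠ 0`. `TupW` with `e = x', f = w'`, `α n = 1, β n = 0` for `n ≠ last`,
`α last = B'`, `β last = -A'`, `a = (-1)^N`; `α n β last - α last β n = - A' ≠ 0`. Here `last` is `Fin.last` of `Fin N`, `N = M + 1`: to avoid casts the statement uses an index `n₀`.
-/

open scoped Classical
open MvPolynomial

set_option linter.unusedSectionVars false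

namespace Pool.Agent.LibPN22

open Pool.Agent.LibBH2 Pool.Agent.LibQC8 Pool.Agent.LibPC60

variable {k J S : Type} [Field k] [IsAlgClosed k] {c N : ℕ} [Fintype J] [Fintype S]
  {K : Type} [Field K] [Algebra k K]

/-- linear combinations of two vectors killed by `Λ j` -/
private theorem C4_lam (X : Fam k J S c N) (j : Fin c) (e f : Fin (c + N) → K) (y : J → K) (a b : K)
    (he : aeval (Sum.elim e y) (X.Λ j) = 0) (hf : aeval (Sum.elim f y) (X.Λ j) = 0) :
    aeval (Sum.elim (a • e + b • f) y) (X.Λ j) = 0 := by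
  rw [lam_lin X j _ 0 y] at he hf ⊢
  simp only [Pi.add_apply, Pi.smul_apply, smul_eq_mul]
  have : ∀ r : Fin (c + N), (a * e r + b * f r) * aeval (Sum.elim 0 y) (pderiv (Sum.inl r) (X.Λ j)) =
      a * (e r * aeval (Sum.elim 0 y) (pderiv (Sum.inl r) (X.Λ j))) +
        b * (f r * aeval (Sum.elim 0 y) (pderiv (Sum.inl r) (X.Λ j))) := fun r => by ring
  rw [Finset.sum_congr rfl (fun r _ => this r), Finset.sum_add_distrib, ← Finset.mul_sum,
    ← Finset.mul_sum, he, hf, mul_zero, mul_zero, add_zero]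

private theorem C4_elim {A B C : Type} (z : A ⊕ B → C) :
    Sum.elim (fun r => z (Sum.inl r)) (fun j => z (Sum.inr j)) = z := by
  funext t
  cases t <;> rfl

private theorem C4_prod {L : Type} [Field L] {N : ℕ} (n₀ : Fin N) (A B s t : L) :
    ((-1) ^ N : L) * ∏ n : Fin N, ((if n = n₀ then -A else 0) * s - (if n = n₀ then B else 1) * t) =
      t ^ (N - 1) * (A * s + B * t) := by
  classical
  rw [← Finset.mul_prod_erase Finset.univ _ (Finset.mem_univ n₀)]
  have h1 : ∏ n ∈ Finset.univ.erase n₀, ((if n = n₀ then -A else 0) * s - (if n = n₀ then B else 1) * t) =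
      ∏ _n ∈ Finset.univ.erase n₀, (-t) := by
    apply Finset.prod_congr rfl
    intro n hn
    have := Finset.ne_of_mem_erase hn
    rw [if_neg this, if_neg this]
    ring
  rw [h1, Finset.prod_const, Finset.card_erase_of_mem (Finset.mem_univ n₀), Finset.card_univ, Fintype.card_fin,
    if_pos rfl, if_pos rfl]
  have hN : 0 < N := n₀.pos
  obtain ⟨M, rfl⟩ : ∃ M, N = M + 1 := ⟨N - 1, by omega⟩
  have h2 : (-t) ^ (M + 1 - 1) = (-1) ^ M * t ^ (M + 1 - 1) := by
    rw [Nat.add_sub_cancel, neg_pow]
  rw [h2, pow_succ]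
  have h3 : ((-1 : L) ^ M) * (-1) ^ M = 1 := by rw [← mul_pow]; simp
  linear_combination (t ^ (M + 1 - 1) * (A * s + B * t)) * h3

/-- [C4] the line of contact `N - 1` over a finite extension, and the residual point -/
theorem contact_ff (X : Fam k J S c N) (hN : 2 ≤ N) (hK : IsFunctionField k K) (u : Pt X K) :
    ∃ (L : Type) (_ : Field L) (_ : Algebra k L) (i : K →ₐ[k] L), IsFunctionField k L ∧
      (Tri X (fun j => i (u.z (Sum.inr j))) (fun _ n => i (u.z (Sum.inl n))) ∨
        ∃ (n₀ : Fin N) (w : Fin N → Pt X L) (e f : Fin (c + N) → L) (α β : Fin N → L) (a : L),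
          (∀ n j, (w n).z (Sum.inr j) = i (u.z (Sum.inr j))) ∧
          TupW X (fun j => i (u.z (Sum.inr j))) e f α β a (fun n r => (w n).z (Sum.inl r)) ∧
          (∀ n, n ≠ n₀ → (∀ r, (w n).z (Sum.inl r) = i (u.z (Sum.inl r))) ∧
            α n * β n₀ - α n₀ * β n ≠ 0)) := by
  classical
  have hinj : Function.Injective (algebraMap K (AlgebraicClosure K)) := (algebraMap K (AlgebraicClosure K)).injective
  let ι : K →ₐ[k] AlgebraicClosure K := IsScalarTower.toAlgHom k K (AlgebraicClosure K)
  have hι : ∀ a, ι a = algebraMap K (AlgebraicClosure K) a := fun a => rfl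
  have hx0 : (fun r => ι (u.z (Sum.inl r))) ≠ 0 := by
    obtain ⟨r, hr⟩ := u.x_ne
    intro h
    have h1 := congrFun h r
    simp only [Pi.zero_apply, hι] at h1
    exact hr (hinj (by rw [h1, map_zero]))
  have hel : Sum.elim (fun r => ι (u.z (Sum.inl r))) (fun j => ι (u.z (Sum.inr j))) = fun a => ι (u.z a) :=
    C4_elim (fun a => ι (u.z a))
  obtain ⟨w, A, B, hind, hwΛ, hwF⟩ := contact (Ω := AlgebraicClosure K) X hN (fun j => ι (u.z (Sum.inr j)))
    (fun r => ι (u.z (Sum.inl r))) hx0
    (fun j => by rw [hel, aeval_map, u.hΛ j, map_zero])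
    (by rw [hel, aeval_map, u.hF, map_zero])
  obtain ⟨L, _, _, i, φ, x', hL, hφi, hφx⟩ := exists_sub hK (Sum.elim w ![A, B])
  have hφinj : Function.Injective φ := φ.toRingHom.injective
  -- the data over `L`
  let e : Fin (c + N) → L := fun r => i (u.z (Sum.inl r))
  let f : Fin (c + N) → L := fun r => x' (Sum.inl r)
  let y : J → L := fun j => i (u.z (Sum.inr j))
  let A' : L := x' (Sum.inr 0)
  let B' : L := x' (Sum.inr 1)
  have hφe : ∀ r, φ (e r) = ι (u.z (Sum.inl r)) := fun r => hφi _
  have hφy : ∀ j, φ (y j) = ι (u.z (Sum.inr j)) := fun j => hφi _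
  have hφf : ∀ r, φ (f r) = w r := fun r => hφx (Sum.inl r)
  have hφA : φ A' = A := hφx (Sum.inr 0)
  have hφB : φ B' = B := hφx (Sum.inr 1)
  have hmap : ∀ (g : Fin (c + N) → L) (P : MvPolynomial (Fin (c + N) ⊕ J) k),
      φ (aeval (Sum.elim g y) P) = aeval (Sum.elim (fun r => φ (g r)) (fun j => ι (u.z (Sum.inr j)))) P := by
    intro g P
    rw [← aeval_map φ]
    congr 2
    funext t
    rcases t with r | j
    · rfl
    · exact hφy j
  have hindL : LinearIndependent L ![e, f] := by
    rw [LinearIndependent.pair_iff] at hind ⊢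
    intro s t hst
    have h1 := hind (φ s) (φ t) (by
      funext r
      have h2 := congrArg φ (congrFun hst r)
      simp only [Pi.add_apply, Pi.smul_apply, smul_eq_mul, map_add, map_mul, Pi.zero_apply, map_zero, hφe, hφf] at h2
      simpa using h2)
    exact ⟨hφinj (by rw [h1.1, map_zero]), hφinj (by rw [h1.2, map_zero])⟩
  have hely : Sum.elim e y = fun a => i (u.z a) := C4_elim (fun a => i (u.z a))
  have heΛ : ∀ j, aeval (Sum.elim e y) (X.Λ j) = 0 := fun j => by
    rw [hely, aeval_map, u.hΛ j, map_zero]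
  have hfΛ : ∀ j, aeval (Sum.elim f y) (X.Λ j) = 0 := fun j => by
    apply hφinj
    rw [hmap, map_zero]
    have : (fun r => φ (f r)) = w := funext hφf
    rw [this, hwΛ j]
  have hFst : ∀ s t : L, aeval (Sum.elim (s • e + t • f) y) X.F = t ^ (N - 1) * (A' * s + B' * t) := by
    intro s t
    apply hφinj
    rw [hmap]
    have h1 : (fun r => φ ((s • e + t • f) r)) = φ s • (fun r => ι (u.z (Sum.inl r))) + φ t • w := by
      funext r
      simp only [Pi.add_apply, Pi.smul_apply, smul_eq_mul, map_add, map_mul, hφe, hφf]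
    rw [h1, hwF]
    simp only [map_mul, map_pow, map_add, hφA, hφB]
  refine ⟨L, inferInstance, inferInstance, i, hL, ?_⟩
  by_cases hA : A' = 0
  · left
    refine ⟨e, f, hindL, heΛ, hfΛ, fun _ => 1, fun _ => 0, (-1) ^ N * B', fun n => ⟨Or.inl one_ne_zero, ?_⟩, ?_⟩
    · show e = (1 : L) • e + (0 : L) • f
      rw [one_smul, zero_smul, add_zero]
    · intro s t
      rw [hFst, hA]
      simp only [zero_mul, zero_add, one_mul, zero_sub, Finset.prod_const, Finset.card_univ, Fintype.card_fin]
      obtain ⟨M, rfl⟩ : ∃ M, N = M + 1 := ⟨N - 1, by omega⟩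
      rw [neg_pow t (M + 1), Nat.add_sub_cancel]
      have h3 : ((-1 : L) ^ (M + 1)) * (-1) ^ (M + 1) = 1 := by rw [← mul_pow]; simp
      linear_combination (-(B' * t ^ (M + 1))) * h3
  · right
    let n₀ : Fin N := ⟨0, by omega⟩
    let q : Fin (c + N) → L := B' • e + (-A') • f
    have hq0 : ∃ r, q r ≠ 0 := by
      by_contra hc
      push Not at hc
      have h1 : B' • e + (-A') • f = 0 := funext hc
      have h2 := (LinearIndependent.pair_iff.1 hindL) _ _ h1
      exact hA (neg_eq_zero.1 h2.2)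
    have hqF : aeval (Sum.elim q y) X.F = 0 := by
      show aeval (Sum.elim (B' • e + (-A') • f) y) X.F = 0
      rw [hFst]
      ring
    have hqΛ : ∀ j, aeval (Sum.elim q y) (X.Λ j) = 0 := fun j => C4_lam X j e f y _ _ (heΛ j) (hfΛ j)
    let Q : Pt X L :=
      { z := Sum.elim q y
        x_ne := by
          obtain ⟨r, hr⟩ := hq0
          exact ⟨r, hr⟩
        y_ne := (ptMap i u).y_ne
        hE := (ptMap i u).hE
        hΛ := hqΛ
        hF := hqF }
    let w' : Fin N → Pt X L := fun n => if n = n₀ then Q else ptMap i u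
    have hw0 : ∀ n, n = n₀ → w' n = Q := fun n hn => if_pos hn
    have hw1 : ∀ n, n ≠ n₀ → w' n = ptMap i u := fun n hn => if_neg hn
    refine ⟨n₀, w', e, f, fun n => if n = n₀ then B' else 1, fun n => if n = n₀ then -A' else 0, (-1) ^ N,
      ?_, ⟨hindL, heΛ, hfΛ, ?_, ?_, ?_, ?_⟩, ?_⟩
    · intro n j
      by_cases hn : n = n₀
      · rw [hw0 n hn]; rfl
      · rw [hw1 n hn]; rfl
    · intro n
      by_cases hn : n = n₀
      · right
        simp only [if_pos hn]
        exact neg_ne_zero.2 hA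
      · left
        simp only [if_neg hn]
        exact one_ne_zero
    · intro n
      by_cases hn : n = n₀
      · simp only [hw0 n hn, if_pos hn]
        rfl
      · simp only [hw1 n hn, if_neg hn, one_smul, zero_smul, add_zero]
        rfl
    · intro s t
      rw [hFst, C4_prod n₀ A' B' s t]
    · exact pow_ne_zero _ (neg_ne_zero.2 one_ne_zero)
    · intro n hn
      refine ⟨fun r => by rw [hw1 n hn]; rfl, ?_⟩
      simp only [if_neg hn, if_true, one_mul, mul_zero, sub_zero]
      exact neg_ne_zero.2 hA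

end Pool.Agent.LibPN22
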