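import Pool.Agent.LibPN22.Defs
import Pool.Agent.LibPC60.A1

/-!
[PN22 D1] degrees of points with constant base coordinates. Plan:
`deg_nonneg`: take `r` with `u.z (inl r) ≠ 0`. `Sp.val (inl r)` with `chi (l v) 1 (wt (inl r)) = l v` (`chi_wt_inl`; with `m = 1` the product is `1`) says that `l v * u_r` has a
value, so `0 ≤ v.ord (l v) + v.ord u_r` (`Place.reg_of_val` or: `Reg` is value plus constant). `∑_{v ∈ A} v.ord u_r = 0` for `A` containing the support
(`Pool.Agent.LibEnd77.Val8.sum_formula`), `A₀` = the support.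
`deg_pos`: the same with `r`; moreover `g = u_s / u_r` is transcendental and has a pole `v₁` (`Val8.exists_pole`); there `v.ord (l v) ≥ - v.ord u_s > - v.ord u_r`. `A₀` = the support of
`u_r` and `v₁`.
-/

open scoped Classical
open MvPolynomial

set_option linter.unusedSectionVars false

namespace Pool.Agent.LibPN22

open Pool.Agent.LibBH2 Pool.Agent.LibQC8 Pool.Agent.LibPC60

variable {k J S : Type} [Field k] [IsAlgClosed k] {c N : ℕ} [Fintype J] [Fintype S]
  {K : Type} [Field K] [Algebra k K]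

omit [IsAlgClosed k] [Fintype J] in
private theorem D1_ord (X : Fam k J S c N) (u : Pt X K)
    (p : Place k K → Pt X k) (l : Place k K → K) (h : ∀ v, Sp v u (p v) (l v) (fun _ => 1))
    (v : Place k K) (i : Fin (c + N)) (hi : u.z (Sum.inl i) ≠ 0) :
    0 ≤ v.ord (l v) + v.ord (u.z (Sum.inl i)) := by
  have h1 := (h v).val (Sum.inl i)
  rw [chi_wt_inl] at h1
  have h2 : chi (1 : K) (fun _ => 1) (wt X.fac X.α (Sum.inl i)) = 1 := by
    simp [chi]
  rw [h2, mul_one] at h1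
  have h3 := (Place.reg_of_val h1).resolve_left (mul_ne_zero (h v).l_ne hi)
  rwa [v.ord_mul _ _ (h v).l_ne hi] at h3

private theorem D1_sum (hK : IsFunctionField k K) (f : K) :
    ∃ A₀ : Finset (Place k K), ∀ A, A₀ ⊆ A → ∑ v ∈ A, v.ord f = 0 := by
  obtain ⟨h1, h2⟩ := Pool.Agent.LibEnd77.Val8.sum_formula hK f
  refine ⟨h1.toFinset, fun A hA => ?_⟩
  rw [← h2]
  symm
  refine finsum_eq_sum_of_support_subset _ ?_
  intro v hv
  exact hA ((Set.Finite.mem_toFinset h1).2 hv)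

/-- [D1a] -/
theorem deg_nonneg (X : Fam k J S c N) (hK : IsFunctionField k K) (u : Pt X K)
    (p : Place k K → Pt X k) (l : Place k K → K) (h : ∀ v, Sp v u (p v) (l v) (fun _ => 1)) :
    ∃ A₀ : Finset (Place k K), ∀ A, A₀ ⊆ A → 0 ≤ ∑ v ∈ A, v.ord (l v) := by
  obtain ⟨r, hr⟩ := u.x_ne
  obtain ⟨A₀, hA₀⟩ := D1_sum hK (u.z (Sum.inl r))
  refine ⟨A₀, fun A hA => ?_⟩
  have h1 : 0 ≤ ∑ v ∈ A, (v.ord (l v) + v.ord (u.z (Sum.inl r))) :=
    Finset.sum_nonneg fun v _ => D1_ord X u p l h v r hr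
  rw [Finset.sum_add_distrib, hA₀ A hA, add_zero] at h1
  exact h1

/-- [D1b] -/
theorem deg_pos (X : Fam k J S c N) (hK : IsFunctionField k K) (u : Pt X K)
    (p : Place k K → Pt X k) (l : Place k K → K) (h : ∀ v, Sp v u (p v) (l v) (fun _ => 1))
    (r s : Fin (c + N)) (hr : u.z (Sum.inl r) ≠ 0)
    (hs : Transcendental k (u.z (Sum.inl s) / u.z (Sum.inl r))) :
    ∃ A₀ : Finset (Place k K), ∀ A, A₀ ⊆ A → 0 < ∑ v ∈ A, v.ord (l v) := by
  obtain ⟨A₀, hA₀⟩ := D1_sum hK (u.z (Sum.inl r))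
  obtain ⟨v₁, hv₁⟩ := Pool.Agent.LibEnd77.Val8.exists_pole hK hs
  have hs0 : u.z (Sum.inl s) ≠ 0 := by
    intro h0
    rw [h0, zero_div] at hs
    exact hs isAlgebraic_zero
  rw [v₁.ord_div _ _ hs0 hr] at hv₁
  refine ⟨insert v₁ A₀, fun A hA => ?_⟩
  have h1 : 0 < ∑ v ∈ A, (v.ord (l v) + v.ord (u.z (Sum.inl r))) := by
    refine Finset.sum_pos' (fun v _ => D1_ord X u p l h v r hr) ⟨v₁, hA (Finset.mem_insert_self _ _), ?_⟩
    have h2 := D1_ord X u p l h v₁ s hs0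
    omega
  rw [Finset.sum_add_distrib, hA₀ A (fun v hv => hA (Finset.mem_insert_of_mem hv)), add_zero] at h1
  exact h1

end Pool.Agent.LibPN22
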