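import Pool.Agent.LibPN22.C3
import Pool.Agent.LibPC60.C4
import Pool.Agent.LibPC60.C5
import Pool.Agent.LibPC60.C17

/-!
[PN22 D2] a nonconstant point in a fibre. Plan:
`{x | Λ_j(x, y) = 0 for all j}` has dimension `≥ N ≥ 3` over `k` (`lam_lin`, as in the row D12/D13 of PC60: /team-store/PC60_D13.lean). Take independent
`g₁, g₂, g₃` in it. If `F(s g₁ + t g₂, y) = 0` for all `s t`: left alternative with `e = g₁, f = g₂`. Otherwise there is a vector `g = s g₁ + t g₂ ≠ 0` with
`F(g, y) ≠ 0`; complete it to independent `e₁, e₂, g` in the span of `g₁, g₂, g₃`. `K₀ = RatFunc k`, `T = RatFunc.X`, `Ω = AlgebraicClosure K₀`. By `binary_form` over `K₀` for the vectors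
`e₁ + T e₂`, `g` the function `z ↦ F(e₁ + T e₂ + z g)` is a polynomial in `z` with the coefficient `F(g, y) ≠ 0` of `z^N`, so it has a root `z ∈ Ω` (`IsAlgClosed.exists_root`). `exists_sub` (C3)
gives `L` with `z ∈ L`; the point `u` has the fibre coordinates `e₁ + T e₂ + z g` and the constant base coordinates `y`. `u ≠ 0`. Nonconstant: `e₁, e₂, g` independent over `k`,
so there are linear forms `φ₁, φ₂ : (Fin (c + N) → k) → k` with `φ₁(e₁) = 1, φ₁(e₂) = φ₁(g) = 0`, `φ₂(e₂) = 1, φ₂(e₁) = φ₂(g) = 0`; extended to `L`: `φ₁(u) = 1`, `φ₂(u) = T`. If all the quotients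
`u_s / u_r` (for one `r` with `u_r ≠ 0`) were algebraic over `k`, they would be in `k` (`Val8.alg_const`), `u = u_r c₀` with `c₀` constant, `φ₁(c₀) u_r = 1`, so `u_r ∈ k` and `T = φ₂(c₀) u_r ∈ k`: contradiction.
(`transcendental_iff_not_algebraic`, or `Transcendental` is by definition `¬ IsAlgebraic`.)
-/

open scoped Classical
open MvPolynomial

set_option linter.unusedSectionVars false

namespace Pool.Agent.LibPN22

open Pool.Agent.LibBH2 Pool.Agent.LibQC8 Pool.Agent.LibPC60

variable {k J S : Type} [Field k] [IsAlgClosed k] {c N : ℕ} [Fintype J] [Fintype S]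
  {K : Type} [Field K] [Algebra k K]

private theorem D2_alg {L : Type} [Field L] [Algebra k L] {x : L} (hx : IsAlgebraic k x) :
    ∃ c : k, algebraMap k L c = x := by
  have h1 := IsAlgClosed.degree_eq_one_of_irreducible k (minpoly.irreducible hx.isIntegral)
  exact minpoly.mem_range_of_degree_eq_one k x h1

private theorem D2_sum {L : Type} [Field L] [Algebra k L] {m : ℕ} (e₁ e₂ g : Fin m → k) (T z : L)
    (q : Fin m → L) :
    ∑ n, (algebraMap k L (e₁ n) + T * algebraMap k L (e₂ n) + z * algebraMap k L (g n)) * q n =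
      ∑ n, algebraMap k L (e₁ n) * q n + T * ∑ n, algebraMap k L (e₂ n) * q n +
        z * ∑ n, algebraMap k L (g n) * q n := by
  rw [Finset.mul_sum, Finset.mul_sum, ← Finset.sum_add_distrib, ← Finset.sum_add_distrib]
  exact Finset.sum_congr rfl fun n _ => by ring

private theorem D2_lin {L : Type} [Field L] [Algebra k L] {m : ℕ} (φ : (Fin m → k) →ₗ[k] k)
    (x : Fin m → k) :
    ∑ n, algebraMap k L (x n) * algebraMap k L (φ fun j => if n = j then 1 else 0) =
      algebraMap k L (φ x) := by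
  rw [LinearMap.pi_apply_eq_sum_univ φ x, map_sum]
  exact Finset.sum_congr rfl fun n _ => by rw [smul_eq_mul, map_mul]

/-- the main case: vectors with dual forms -/
private theorem D2_main (X : Fam k J S c N) (hN : 3 ≤ N) (y : BPt X k) (e₁ e₂ g : Fin (c + N) → k)
    (h₁ : ∀ j, aeval (Sum.elim e₁ y.y) (X.Λ j) = 0) (h₂ : ∀ j, aeval (Sum.elim e₂ y.y) (X.Λ j) = 0)
    (hg : ∀ j, aeval (Sum.elim g y.y) (X.Λ j) = 0) (hF : aeval (Sum.elim g y.y) X.F ≠ 0)
    (φ₁ φ₂ : (Fin (c + N) → k) →ₗ[k] k) (a1 : φ₁ e₁ = 1) (a2 : φ₁ e₂ = 0) (a3 : φ₁ g = 0)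
    (b1 : φ₂ e₁ = 0) (b2 : φ₂ e₂ = 1) (b3 : φ₂ g = 0) :
    ∃ (L : Type) (_ : Field L) (_ : Algebra k L) (u : Pt X L) (r s : Fin (c + N)),
      IsFunctionField k L ∧ (∀ j, u.z (Sum.inr j) = algebraMap k L (y.y j)) ∧
      u.z (Sum.inl r) ≠ 0 ∧ Transcendental k (u.z (Sum.inl s) / u.z (Sum.inl r)) := by
  classical
  obtain ⟨hK, hT⟩ := ratFunc_ff (k := k)
  set T : RatFunc k := RatFunc.X with hTdef
  obtain ⟨a, ha⟩ := binary_form X (fun j => algebraMap k (RatFunc k) (y.y j))
    (fun n => algebraMap k (RatFunc k) (e₁ n) + T * algebraMap k (RatFunc k) (e₂ n))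
    (fun n => algebraMap k (RatFunc k) (g n))
  -- the leading coefficient
  have haN : a (Fin.last N) ≠ 0 := by
    have h := ha (RatFunc k) (AlgHom.id k _) 0 1
    simp only [AlgHom.coe_id, id_eq, zero_mul, one_mul, zero_add, one_pow, mul_one] at h
    rw [Finset.sum_eq_single (Fin.last N)] at h
    · rw [Fin.val_last, Nat.sub_self, pow_zero, mul_one] at h
      rw [← h]
      have h2 : aeval (Sum.elim (fun n => algebraMap k (RatFunc k) (g n))
          (fun j => algebraMap k (RatFunc k) (y.y j))) X.F =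
          algebraMap k (RatFunc k) (aeval (Sum.elim g y.y) X.F) := by
        rw [← Algebra.ofId_apply, ← aeval_map]
        congr 1
        congr 1
        funext n
        rcases n with n | n <;> rfl
      rw [h2]
      exact (map_ne_zero (algebraMap k (RatFunc k))).2 hF
    · intro n _ hn
      have hlt : (n : ℕ) < N := by
        rcases Nat.lt_or_ge (n : ℕ) N with h | h
        · exact h
        · exact absurd (Fin.ext (by rw [Fin.val_last]; have := n.2; omega)) hn
      rw [zero_pow (by omega), mul_zero]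
    · intro h
      exact absurd (Finset.mem_univ _) h
  -- the root
  set P : Polynomial (AlgebraicClosure (RatFunc k)) :=
    ∑ n : Fin (N + 1), Polynomial.C (algebraMap (RatFunc k) (AlgebraicClosure (RatFunc k)) (a n)) *
      Polynomial.X ^ (n : ℕ) with hP
  have hcoeff : P.coeff N = algebraMap (RatFunc k) (AlgebraicClosure (RatFunc k)) (a (Fin.last N)) := by
    rw [hP, Polynomial.finset_sum_coeff, Finset.sum_eq_single (Fin.last N)]
    · rw [Polynomial.coeff_C_mul, Polynomial.coeff_X_pow, Fin.val_last, if_pos rfl, mul_one]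
    · intro n _ hn
      rw [Polynomial.coeff_C_mul, Polynomial.coeff_X_pow, if_neg, mul_zero]
      intro h
      exact hn (Fin.ext (by rw [Fin.val_last]; exact h.symm))
    · intro h
      exact absurd (Finset.mem_univ _) h
  have hdeg : P.degree ≠ 0 := by
    intro h
    have h1 : P.coeff N = 0 := Polynomial.coeff_eq_zero_of_degree_lt (by
      rw [h]
      exact_mod_cast (by omega : 0 < N))
    rw [hcoeff] at h1
    exact haN ((map_eq_zero _).1 h1)
  obtain ⟨z, hz⟩ := IsAlgClosed.exists_root P hdeg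
  have hz' : ∑ n : Fin (N + 1), algebraMap (RatFunc k) (AlgebraicClosure (RatFunc k)) (a n) *
      z ^ (n : ℕ) = 0 := by
    have h : P.eval z = 0 := hz
    rw [hP, Polynomial.eval_finset_sum] at h
    simpa only [Polynomial.eval_mul, Polynomial.eval_C, Polynomial.eval_pow, Polynomial.eval_X]
      using h
  obtain ⟨L, fL, aL, i, φ, x', hL, hφi, hφx⟩ := exists_sub hK (fun _ : Unit => z)
  -- the coordinates
  have hφk : ∀ b : k, φ (algebraMap k L b) =
      algebraMap k (AlgebraicClosure (RatFunc k)) b := fun b => φ.commutes b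
  set w : Fin (c + N) → L := fun n => algebraMap k L (e₁ n) + i T * algebraMap k L (e₂ n) +
    x' () * algebraMap k L (g n) with hw
  have hform : ∀ (ψ : (Fin (c + N) → k) →ₗ[k] k),
      ∑ n, w n * algebraMap k L (ψ fun j => if n = j then 1 else 0) =
        algebraMap k L (ψ e₁) + i T * algebraMap k L (ψ e₂) + x' () * algebraMap k L (ψ g) := by
    intro ψ
    rw [hw]
    simp only []
    rw [D2_sum, D2_lin, D2_lin, D2_lin]
  have hΛk : ∀ (x : Fin (c + N) → k) (j : Fin c), aeval (Sum.elim x y.y) (X.Λ j) = 0 →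
      ∑ n, algebraMap k L (x n) * aeval (Sum.elim (0 : Fin (c + N) → L)
        (fun j => algebraMap k L (y.y j))) (pderiv (Sum.inl n) (X.Λ j)) = 0 := by
    intro x j hx
    have h1 := lam_lin X j (fun n => algebraMap k L (x n)) 0 (fun j => algebraMap k L (y.y j))
    rw [← h1]
    have h2 : aeval (Sum.elim (fun n => algebraMap k L (x n))
        (fun j => algebraMap k L (y.y j))) (X.Λ j) =
        algebraMap k L (aeval (Sum.elim x y.y) (X.Λ j)) := by
      rw [← Algebra.ofId_apply, ← aeval_map]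
      congr 1
      congr 1
      funext n
      rcases n with n | n <;> rfl
    rw [h2, hx, map_zero]
  have hwne : ∃ n, w n ≠ 0 := by
    by_contra h
    push Not at h
    have h1 := hform φ₁
    rw [a1, a2, a3] at h1
    simp only [h, zero_mul, Finset.sum_const_zero, map_one, map_zero, mul_zero, add_zero] at h1
    exact zero_ne_one h1
  obtain ⟨r, hr⟩ := hwne
  have hu : ∃ u : Pt X L, u.z = Sum.elim w (fun j => algebraMap k L (y.y j)) := by
    refine ⟨⟨Sum.elim w (fun j => algebraMap k L (y.y j)), ⟨r, hr⟩, ?_, ?_, ?_, ?_⟩, rfl⟩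
    · intro t
      obtain ⟨j, hj1, hj2⟩ := y.y_ne t
      exact ⟨j, hj1, (map_ne_zero (algebraMap k L)).2 hj2⟩
    · intro e he
      have h2 := aeval_map (Algebra.ofId k L) y.y e
      rw [y.hE e he, map_zero] at h2
      exact h2
    · intro j
      rw [lam_lin X j w 0 (fun j => algebraMap k L (y.y j)), hw]
      simp only []
      rw [D2_sum, hΛk e₁ j (h₁ j), hΛk e₂ j (h₂ j), hΛk g j (hg j)]
      ring
    · have hinj : Function.Injective φ := φ.toRingHom.injective
      apply hinj
      rw [map_zero, ← aeval_map]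
      have h3 := ha (AlgebraicClosure (RatFunc k))
        (IsScalarTower.toAlgHom k (RatFunc k) (AlgebraicClosure (RatFunc k))) 1 z
      have h4 : (fun a => φ (Sum.elim w (fun j => algebraMap k L (y.y j)) a)) =
          Sum.elim (fun n => 1 * (IsScalarTower.toAlgHom k (RatFunc k)
            (AlgebraicClosure (RatFunc k))) (algebraMap k (RatFunc k) (e₁ n) +
              T * algebraMap k (RatFunc k) (e₂ n)) + z * (IsScalarTower.toAlgHom k (RatFunc k)
            (AlgebraicClosure (RatFunc k))) (algebraMap k (RatFunc k) (g n)))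
          (fun j => (IsScalarTower.toAlgHom k (RatFunc k)
            (AlgebraicClosure (RatFunc k))) (algebraMap k (RatFunc k) (y.y j))) := by
        funext b
        rcases b with b | b
        · show φ (w b) = _
          rw [hw]
          simp only [Sum.elim_inl, map_add, map_mul, hφk, hφi, hφx, one_mul, AlgHom.commutes,
            IsScalarTower.coe_toAlgHom']
        · show φ (algebraMap k L (y.y b)) = _
          simp only [Sum.elim_inr, hφk, AlgHom.commutes]
      rw [h4, h3]
      simp only [one_pow, mul_one, IsScalarTower.coe_toAlgHom']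
      exact hz'
  obtain ⟨u, hu⟩ := hu
  by_contra hcon
  push Not at hcon
  have hur : u.z (Sum.inl r) = w r := by rw [hu]; rfl
  have hall : ∀ n, ∃ b : k, algebraMap k L b = w n / w r := by
    intro n
    apply D2_alg
    by_contra h
    refine hcon L fL aL u r n hL (fun j => by rw [hu]; rfl) (by rw [hur]; exact hr) ?_
    rw [hu]
    exact h
  choose b hb using hall
  have hwb : ∀ n, w n = w r * algebraMap k L (b n) := by
    intro n
    rw [hb n, mul_div_cancel₀ _ hr]
  have hψ : ∀ (ψ : (Fin (c + N) → k) →ₗ[k] k),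
      w r * algebraMap k L (ψ b) =
        algebraMap k L (ψ e₁) + i T * algebraMap k L (ψ e₂) + x' () * algebraMap k L (ψ g) := by
    intro ψ
    rw [← hform ψ, ← D2_lin ψ b, Finset.mul_sum]
    refine Finset.sum_congr rfl fun n _ => ?_
    rw [hwb n, mul_assoc]
  have hψ1 := hψ φ₁
  have hψ2 := hψ φ₂
  rw [a1, a2, a3] at hψ1
  rw [b1, b2, b3] at hψ2
  simp only [map_one, map_zero, mul_zero, add_zero, mul_one, zero_add] at hψ1 hψ2
  have hne : algebraMap k L (φ₁ b) ≠ 0 := by
    intro h
    rw [h, mul_zero] at hψ1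
    exact zero_ne_one hψ1
  have hwr : w r = (algebraMap k L (φ₁ b))⁻¹ := eq_inv_of_mul_eq_one_left hψ1
  have hiT : i T = i (algebraMap k (RatFunc k) ((φ₁ b)⁻¹ * φ₂ b)) := by
    rw [← hψ2, hwr, i.commutes, map_mul, map_inv₀]
  have hTe : T = algebraMap k (RatFunc k) ((φ₁ b)⁻¹ * φ₂ b) := i.toRingHom.injective hiT
  apply hT
  rw [hTe]
  exact isAlgebraic_algebraMap _

/-- three vectors with dual forms -/
private theorem D2_dual {m : ℕ} (v : Fin 3 → Fin m → k) (hv : LinearIndependent k v) :
    ∃ ψ : Fin 3 → (Fin m → k) →ₗ[k] k, ∀ a b, ψ a (v b) = if a = b then 1 else 0 := by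
  classical
  have hker : LinearMap.ker (Fintype.linearCombination k v) = ⊥ := by
    rw [LinearMap.ker_eq_bot]
    exact linearIndependent_iff_injective_fintypeLinearCombination.1 hv
  obtain ⟨R, hR⟩ := (Fintype.linearCombination k v).exists_leftInverse_of_injective hker
  refine ⟨fun a => (LinearMap.proj a).comp R, fun a b => ?_⟩
  have h1 : R (v b) = Pi.single b 1 := by
    have h2 := congrArg (fun f => f (Pi.single b (1 : k))) hR
    simpa using h2
  show R (v b) a = _
  rw [h1, Pi.single_apply]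

private theorem D2_case (X : Fam k J S c N) (hN : 3 ≤ N) (y : BPt X k) (v : Fin 3 → Fin (c + N) → k)
    (hv : LinearIndependent k v) (hΛ : ∀ n j, aeval (Sum.elim (v n) y.y) (X.Λ j) = 0) (s t : k)
    (hs : s ≠ 0) (hF : aeval (Sum.elim (s • v 0 + t • v 1) y.y) X.F ≠ 0) :
    ∃ (L : Type) (_ : Field L) (_ : Algebra k L) (u : Pt X L) (r s : Fin (c + N)),
      IsFunctionField k L ∧ (∀ j, u.z (Sum.inr j) = algebraMap k L (y.y j)) ∧
      u.z (Sum.inl r) ≠ 0 ∧ Transcendental k (u.z (Sum.inl s) / u.z (Sum.inl r)) := by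
  obtain ⟨ψ, hψ⟩ := D2_dual v hv
  have hlam : ∀ (x : Fin (c + N) → k) j, aeval (Sum.elim x y.y) (X.Λ j) =
      ∑ n, x n * aeval (Sum.elim (0 : Fin (c + N) → k) y.y) (pderiv (Sum.inl n) (X.Λ j)) :=
    fun x j => lam_lin X j x 0 y.y
  refine D2_main X hN y (v 1) (v 2) (s • v 0 + t • v 1) (hΛ 1) (hΛ 2) ?_ hF
    (ψ 1 - (t / s) • ψ 0) (ψ 2) ?_ ?_ ?_ ?_ ?_ ?_
  · intro j
    have h0 := hΛ 0 j
    have h1 := hΛ 1 j
    rw [hlam] at h0 h1 ⊢
    have h2 : ∑ n, (s • v 0 + t • v 1) n *
        aeval (Sum.elim (0 : Fin (c + N) → k) y.y) (pderiv (Sum.inl n) (X.Λ j)) =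
        s * ∑ n, v 0 n * aeval (Sum.elim (0 : Fin (c + N) → k) y.y) (pderiv (Sum.inl n) (X.Λ j)) +
        t * ∑ n, v 1 n *
          aeval (Sum.elim (0 : Fin (c + N) → k) y.y) (pderiv (Sum.inl n) (X.Λ j)) := by
      rw [Finset.mul_sum, Finset.mul_sum, ← Finset.sum_add_distrib]
      refine Finset.sum_congr rfl fun n _ => ?_
      simp only [Pi.add_apply, Pi.smul_apply, smul_eq_mul]
      ring
    rw [h2, h0, h1]
    ring
  · simp [hψ]
  · simp [hψ]
  · simp only [LinearMap.sub_apply, LinearMap.smul_apply, map_add, map_smul, hψ, smul_eq_mul]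
    simp only [Fin.isValue, one_ne_zero, if_false, if_true, zero_ne_one, mul_zero, mul_one]
    field_simp
    ring
  · simp [hψ]
  · simp [hψ]
  · simp [hψ]

/-- [D2] a nonconstant point in a fibre -/
theorem exists_nonconst (X : Fam k J S c N) (hN : 3 ≤ N) (y : BPt X k) :
    (∃ e f : Fin (c + N) → k, LinearIndependent k ![e, f] ∧
      (∀ j, aeval (Sum.elim e y.y) (X.Λ j) = 0) ∧ (∀ j, aeval (Sum.elim f y.y) (X.Λ j) = 0) ∧
      ∀ s t : k, aeval (Sum.elim (s • e + t • f) y.y) X.F = 0) ∨
    ∃ (L : Type) (_ : Field L) (_ : Algebra k L) (u : Pt X L) (r s : Fin (c + N)),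
      IsFunctionField k L ∧ (∀ j, u.z (Sum.inr j) = algebraMap k L (y.y j)) ∧
      u.z (Sum.inl r) ≠ 0 ∧ Transcendental k (u.z (Sum.inl s) / u.z (Sum.inl r)) := by
  classical
  set A : Matrix (Fin c) (Fin (c + N)) k := fun j i =>
    aeval (Sum.elim (0 : Fin (c + N) → k) y.y) (pderiv (Sum.inl i) (X.Λ j)) with hA
  have hlam : ∀ (x : Fin (c + N) → k) (j : Fin c),
      aeval (Sum.elim x y.y) (X.Λ j) = A.mulVecLin x j := by
    intro x j
    rw [lam_lin X j x 0 y.y, Matrix.mulVecLin_apply, Matrix.mulVec, dotProduct]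
    exact Finset.sum_congr rfl fun i _ => mul_comm _ _
  have hrank := LinearMap.finrank_range_add_finrank_ker A.mulVecLin
  have hrange : Module.finrank k (LinearMap.range A.mulVecLin) ≤ c := by
    have := Submodule.finrank_le (LinearMap.range A.mulVecLin)
    simpa using this
  have htot : Module.finrank k (Fin (c + N) → k) = c + N := by simp
  have hker : 3 ≤ Module.finrank k (LinearMap.ker A.mulVecLin) := by omega
  obtain ⟨g, hg⟩ := exists_linearIndependent_of_le_finrank hker
  have hv : LinearIndependent k (fun n => (g n : Fin (c + N) → k)) :=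
    hg.map' (LinearMap.ker A.mulVecLin).subtype (Submodule.ker_subtype _)
  have hΛ : ∀ n j, aeval (Sum.elim (g n : Fin (c + N) → k) y.y) (X.Λ j) = 0 := by
    intro n j
    rw [hlam, LinearMap.mem_ker.1 (g n).2]
    rfl
  by_cases hall : ∀ s t : k, aeval (Sum.elim (s • (g 0 : Fin (c + N) → k) +
      t • (g 1 : Fin (c + N) → k)) y.y) X.F = 0
  · left
    refine ⟨g 0, g 1, ?_, hΛ 0, hΛ 1, hall⟩
    have h1 := hv.comp (![0, 1] : Fin 2 → Fin 3) (by decide)
    convert h1 using 1
    funext n
    fin_cases n <;> rfl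
  · right
    push Not at hall
    obtain ⟨s, t, hst⟩ := hall
    by_cases hs : s = 0
    · have ht : t ≠ 0 := by
        rintro rfl
        apply hst
        obtain ⟨a, ha⟩ := binary_form X y.y (g 0 : Fin (c + N) → k) (g 1 : Fin (c + N) → k)
        have h := ha k (AlgHom.id k k) s 0
        simp only [AlgHom.coe_id, id_eq] at h
        rw [hs] at h ⊢
        refine Eq.trans ?_ (h.trans ?_)
        · rfl
        · refine Finset.sum_eq_zero fun n _ => ?_
          by_cases hn : (n : ℕ) = 0
          · rw [hn, Nat.sub_zero, zero_pow (by omega : N ≠ 0), mul_zero, zero_mul]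
          · rw [zero_pow hn, mul_zero]
      refine D2_case X hN y (fun n => (g (Equiv.swap 0 1 n) : Fin (c + N) → k))
        (hv.comp _ (Equiv.injective _)) (fun n j => hΛ _ j) t s ht ?_
      have hc : t • (g (Equiv.swap (0 : Fin 3) 1 0) : Fin (c + N) → k) +
          s • (g (Equiv.swap (0 : Fin 3) 1 1) : Fin (c + N) → k) =
          s • (g 0 : Fin (c + N) → k) + t • (g 1 : Fin (c + N) → k) := by
        rw [Equiv.swap_apply_left, Equiv.swap_apply_right]
        exact add_comm (t • (g 1 : Fin (c + N) → k)) (s • (g 0 : Fin (c + N) → k))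
      rw [hc]
      exact hst
    · exact D2_case X hN y (fun n => (g n : Fin (c + N) → k)) hv hΛ s t hs hst

end Pool.Agent.LibPN22
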