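import Pool.Agent.LibPN22.A1
import Pool.Agent.LibPN22.C4
import Pool.Agent.LibPN22.D1
import Pool.Agent.LibPN22.D2
import Pool.Agent.LibPC60.B3
import Pool.Agent.LibPC60.D4
import Pool.Agent.LibPC60.C17

/-!
[PN22 D3] every fibre over a `k`-point contains a point with a line of contact `N`. Plan:
by contradiction: `hno : ∀ x, x ≠ 0 → ¬ Tri X y.y (fun _ => x)`. `exists_nonconst` (D2): the left alternative gives `TriW` with `x = e` (`α = 1, β = 0`, constant `0`). Otherwise `L, u, r, s`.
`contact_ff` (C4) for `u` gives `i : L → L'`. Left alternative `Tri`: there is a place `v` of `L'` (`Val8.exists_zero` for the transcendental element of `IsFunctionField`), and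
`exists_normX` (PC60 B3) with `m = 1` and the constant base point gives a value `p` of `ptMap i u`; `tri_lim` (D4) gives `Tri X y.y (fun _ => p)`, contradiction. Right alternative: the tuple `w` over `L'`.
For every place `v` of `L'`: values `p n v`, `l n v` of `w n` with `m = 1` (`exists_normX`); for `n ≠ n₀` choose them equal (all `w n`, `n ≠ n₀`, have the same coordinates: choose for `n ≠ n₀` the
data of one of them; there is one as `N ≥ 3`). `loc` (A1): its right alternative is impossible by `hno`, so `v.ord a + v.ord (chi 1 1 _) + N d = ∑ v.ord (l n v)`, `chi 1 1 _ = 1`. For `n ≠ n₀`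
the values `p n v`, `p n₀ v` are not proportional: otherwise the tuple of values is `(x, .., x, λ x)`, `Tri` by `tri_lim`, so `Tri X y.y (fun _ => x)` (if `p' n = c n • p n` with `c n ≠ 0` then `Tri` for
`p` gives `Tri` for `p'`: multiply `α n`, `β n` by `c n` and divide the constant), contradiction. So `v.ord (α n β n₀ - α n₀ β n) + v.ord (l n v) + v.ord (l n₀ v) = d`. Let `P = ∑_{v ∈ A} v.ord (l n v)` (`n ≠ n₀`),
`Q = ∑_{v ∈ A} v.ord (l n₀ v)`, `A` large. The sums of `v.ord` of functions vanish (`Val8.sum_formula`): `N ∑ d = (N - 1) P + Q`, `∑ d = P + Q`, so `P + (N - 1) Q = 0`. But `Q ≥ 0`, `P > 0` by `deg_nonneg`, `deg_pos`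
(D1; for `P` the transcendental quotient is `i` of the one of `u`). Contradiction.
-/

open scoped Classical
open MvPolynomial

set_option linter.unusedSectionVars false

namespace Pool.Agent.LibPN22

open Pool.Agent.LibBH2 Pool.Agent.LibQC8 Pool.Agent.LibPC60

variable {k J S : Type} [Field k] [IsAlgClosed k] {c N : ℕ} [Fintype J] [Fintype S]
  {K : Type} [Field K] [Algebra k K]

private theorem D3_sum (hK : IsFunctionField k K) (f : K) :
    ∃ A₀ : Finset (Place k K), ∀ A, A₀ ⊆ A → ∑ v ∈ A, v.ord f = 0 := by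
  obtain ⟨h1, h2⟩ := Pool.Agent.LibEnd77.Val8.sum_formula hK f
  refine ⟨h1.toFinset, fun A hA => ?_⟩
  rw [← h2]
  symm
  refine finsum_eq_sum_of_support_subset _ ?_
  intro v hv
  exact hA ((Set.Finite.mem_toFinset h1).2 hv)

private theorem D3_chi_one (D : Deg S) : chi (1 : K) (fun _ : S => (1 : K)) D = 1 := by
  simp [chi]

/-- scaling of the points of a tuple -/
private theorem D3_scale (X : Fam k J S c N) (y : J → K) (p p' : Fin N → (Fin (c + N) → K))
    (h : Tri X y p) (μ : Fin N → K) (hμ : ∀ n, μ n ≠ 0) (hp : ∀ n, p' n = μ n • p n) :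
    Tri X y p' := by
  obtain ⟨e, f, hi, he, hf, α, β, a, hab, hF⟩ := h
  refine ⟨e, f, hi, he, hf, fun n => μ n * α n, fun n => μ n * β n, a / ∏ n, μ n, ?_, ?_⟩
  · intro n
    obtain ⟨h1, h2⟩ := hab n
    refine ⟨h1.imp (mul_ne_zero (hμ n)) (mul_ne_zero (hμ n)), ?_⟩
    rw [hp, h2, smul_add, smul_smul, smul_smul]
  · intro s t
    rw [hF s t]
    have h1 : ∏ n, (μ n * β n * s - μ n * α n * t) = (∏ n, μ n) * ∏ n, (β n * s - α n * t) := by
      rw [← Finset.prod_mul_distrib]
      exact Finset.prod_congr rfl fun n _ => by ring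
    have h2 : ∏ n, μ n ≠ 0 := Finset.prod_ne_zero_iff.2 fun n _ => hμ n
    rw [h1, ← mul_assoc, div_mul_cancel₀ _ h2]

/-- proportional vectors -/
private theorem D3_prop {I : Type} {x x' : I → k} (hx : x ≠ 0) (hx' : x' ≠ 0)
    (h : ∀ r s, x r * x' s - x s * x' r = 0) : ∃ μ : k, μ ≠ 0 ∧ x' = μ • x := by
  obtain ⟨r, hr⟩ := Function.ne_iff.1 hx
  have hr' : x r ≠ 0 := hr
  have h1 : x' = (x' r / x r) • x := by
    funext s
    have h2 := h r s
    rw [Pi.smul_apply, smul_eq_mul]
    field_simp
    linear_combination h2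
  refine ⟨x' r / x r, ?_, h1⟩
  intro h0
  rw [h0, zero_smul] at h1
  exact hx' h1

private theorem D3_transc {L M : Type} [Field L] [Algebra k L] [Field M] [Algebra k M]
    (i : L →ₐ[k] M) {x : L} (hx : Transcendental k x) : Transcendental k (i x) := by
  intro h
  apply hx
  obtain ⟨P, hP, h0⟩ := h
  refine ⟨P, hP, ?_⟩
  rw [Polynomial.aeval_algHom_apply] at h0
  exact i.injective (h0.trans (map_zero i).symm)

/-- [D3] every fibre over a `k`-point contains a point with a line of contact `N` -/
theorem exists_flex_const (X : Fam k J S c N) (hN : 3 ≤ N) (y : BPt X k) :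
    ∃ x : Fin (c + N) → k, x ≠ 0 ∧ Tri X y.y (fun _ => x) := by
  by_contra hcon
  have hno : ∀ x : Fin (c + N) → k, x ≠ 0 → ¬ Tri X y.y (fun _ => x) :=
    fun x hx h => hcon ⟨x, hx, h⟩
  rcases exists_nonconst X hN y with ⟨e, f, hi, he, hf, hF⟩ | ⟨L, _, _, u, r, s, hL, hyu, hr, hs⟩
  · refine hno e ?_ ⟨e, f, hi, he, hf, fun _ => 1, fun _ => 0, 0, fun n => ⟨Or.inl one_ne_zero, ?_⟩, ?_⟩
    · exact hi.ne_zero (0 : Fin 2)
    · rw [one_smul, zero_smul, add_zero]
    · intro s t
      rw [hF, zero_mul]
  · obtain ⟨M, _, _, i, hM, hcase⟩ := contact_ff X (by omega) hL u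
    have hbase : ∀ (v : Place k M) (w : Pt X M), (∀ j, w.z (Sum.inr j) = i (u.z (Sum.inr j))) →
        ∀ j, v.Zer ((fun _ : S => (1 : M)) (X.fac j) * w.z (Sum.inr j) -
          algebraMap k M (y.y j)) := by
      intro v w hw j
      have h1 : (1 : M) * w.z (Sum.inr j) - algebraMap k M (y.y j) = 0 := by
        rw [hw, hyu, i.commutes, one_mul, sub_self]
      change v.Zer ((1 : M) * w.z (Sum.inr j) - algebraMap k M (y.y j))
      rw [h1]
      exact v.zer_zero
    have hex : ∀ (v : Place k M) (w : Pt X M), (∀ j, w.z (Sum.inr j) = i (u.z (Sum.inr j))) →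
        ∃ (l : M) (p : Pt X k), Sp v w p l (fun _ => 1) := by
      intro v w hw
      obtain ⟨l, p, -, h⟩ := exists_normX X hM v w (fun _ => 1) (fun _ => one_ne_zero) y
        (hbase v w hw)
      exact ⟨l, p, h⟩
    have hp0 : ∀ p : Pt X k, (fun r => p.z (Sum.inl r)) ≠ 0 := by
      intro p h0
      obtain ⟨r, hr⟩ := p.x_ne
      exact hr (congrFun h0 r)
    have hyb : ∀ v : Place k M, ∀ j, v.Zer ((fun _ : S => (1 : M)) (X.fac j) *
        i (u.z (Sum.inr j)) - algebraMap k M (y.y j)) := fun v j =>
      hbase v (ptMap i u) (fun _ => rfl) j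
    rcases hcase with hTri | ⟨n₀, w, e, f, α, β, a, hwy, hT, hn⟩
    · obtain ⟨t, ht, -⟩ := id hM
      obtain ⟨v, -⟩ := Pool.Agent.LibEnd77.Val8.exists_zero hM ht
      obtain ⟨l, p, hSp⟩ := hex v (ptMap i u) (fun _ => rfl)
      refine hno (fun r => p.z (Sum.inl r)) (hp0 p) ?_
      exact tri_lim X hM v _ _ hTri (fun _ => 1) (fun _ => one_ne_zero) y.y (hyb v) (fun _ => l)
        (fun _ => hSp.l_ne) _ (fun _ => hp0 p) (fun _ r => hSp.val (Sum.inl r))
    · choose l1 p1 hSp1 using fun v : Place k M => hex v (ptMap i u) (fun _ => rfl)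
      choose l0 p0 hSp0 using fun v : Place k M => hex v (w n₀) (hwy n₀)
      -- an index different from n₀
      obtain ⟨n₁, hn₁⟩ : ∃ n₁ : Fin N, n₁ ≠ n₀ := by
        by_cases h : n₀ = ⟨0, by omega⟩
        · refine ⟨⟨1, by omega⟩, ?_⟩
          rw [h]
          intro h1
          exact absurd (congrArg Fin.val h1) (by norm_num)
        · exact ⟨⟨0, by omega⟩, fun h1 => h h1.symm⟩
      obtain ⟨g, hg⟩ : ∃ g : M, g = α n₁ * β n₀ - α n₀ * β n₁ := ⟨_, rfl⟩
      have hg0 : g ≠ 0 := by
        rw [hg]
        exact (hn n₁ hn₁).2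
      have hTW : Tri X (fun j => i (u.z (Sum.inr j))) (fun n r => (w n).z (Sum.inl r)) :=
        ⟨e, f, hT.ind, hT.he, hT.hf, α, β, a, fun n => ⟨hT.ab n, hT.hu n⟩, hT.hF⟩
      have key : ∀ v : Place k M, (N : ℤ) * v.ord g + v.ord a + v.ord (l1 v) +
          ((N : ℤ) - 1) * v.ord (l0 v) = 0 := by
        intro v
        obtain ⟨l, hl⟩ : ∃ l : Fin N → M, l = fun n => if n = n₀ then l0 v else l1 v := ⟨_, rfl⟩
        obtain ⟨P, hP⟩ : ∃ P : Fin N → (Fin (c + N) → k), P = fun n =>
          if n = n₀ then (fun r => (p0 v).z (Sum.inl r)) else (fun r => (p1 v).z (Sum.inl r)) :=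
          ⟨_, rfl⟩
        have hl0 : l n₀ = l0 v := by rw [hl]; simp
        have hl1 : ∀ n, n ≠ n₀ → l n = l1 v := by
          intro n h
          rw [hl]
          simp [h]
        have hP0 : P n₀ = fun r => (p0 v).z (Sum.inl r) := by rw [hP]; simp
        have hP1 : ∀ n, n ≠ n₀ → P n = fun r => (p1 v).z (Sum.inl r) := by
          intro n h
          rw [hP]
          simp [h]
        have hlne : ∀ n, l n ≠ 0 := by
          intro n
          by_cases h : n = n₀
          · rw [h, hl0]
            exact (hSp0 v).l_ne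
          · rw [hl1 n h]
            exact (hSp1 v).l_ne
        have hPne : ∀ n, P n ≠ 0 := by
          intro n
          by_cases h : n = n₀
          · rw [h, hP0]
            exact hp0 _
          · rw [hP1 n h]
            exact hp0 _
        have hval : ∀ n r, v.Zer (chi (l n) (fun _ : S => (1 : M)) (wt X.fac X.α (Sum.inl r)) *
            (w n).z (Sum.inl r) - algebraMap k M (P n r)) := by
          intro n r
          by_cases h : n = n₀
          · rw [h, hl0, hP0]
            exact (hSp0 v).val (Sum.inl r)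
          · rw [hl1 n h, hP1 n h, (hn n h).1 r]
            exact (hSp1 v).val (Sum.inl r)
        obtain ⟨d, hd1, hd2⟩ := loc X hM v _ e f α β a _ hT (fun _ => 1) (fun _ => one_ne_zero) y.y
          (hyb v) l hlne P hPne hval
        have hprop : ∃ r s, P n₁ r * P n₀ s - P n₁ s * P n₀ r ≠ 0 := by
          by_contra hc
          push Not at hc
          obtain ⟨μ, hμ, hμP⟩ := D3_prop (hPne n₁) (hPne n₀) hc
          have h1 := tri_lim X hM v _ _ hTW (fun _ => 1) (fun _ => one_ne_zero) y.y (hyb v) l hlne P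
            hPne hval
          refine hno (P n₁) (hPne n₁) (D3_scale X y.y P _ h1
            (fun n => if n = n₀ then μ⁻¹ else 1) ?_ ?_)
          · intro n
            by_cases h : n = n₀
            · simp only [h, if_true]
              exact inv_ne_zero hμ
            · simp [h]
          · intro n
            by_cases h : n = n₀
            · simp only [h, if_true]
              rw [hμP, smul_smul, inv_mul_cancel₀ hμ, one_smul]
            · simp only [h, if_false]
              rw [one_smul, hP1 n h, hP1 n₁ hn₁]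
        have h1 := hd1 n₁ n₀ (by rw [← hg]; exact hg0) hprop
        rw [← hg, hl1 n₁ hn₁, hl0] at h1
        have h2 := hd2.resolve_right fun h => hno (P n₀) (hPne n₀) (h n₀)
        rw [D3_chi_one, v.ord_one] at h2
        have h3 : ∑ n, v.ord (l n) = v.ord (l0 v) + ((N : ℤ) - 1) * v.ord (l1 v) := by
          rw [← Finset.add_sum_erase _ _ (Finset.mem_univ n₀), hl0]
          have h4 : ∑ n ∈ Finset.univ.erase n₀, v.ord (l n) =
              ∑ n ∈ Finset.univ.erase n₀, v.ord (l1 v) :=
            Finset.sum_congr rfl fun n hn' => by rw [hl1 n (Finset.ne_of_mem_erase hn')]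
          rw [h4, Finset.sum_const, Finset.card_erase_of_mem (Finset.mem_univ _), Finset.card_univ,
            Fintype.card_fin, nsmul_eq_mul, Nat.cast_sub (by omega)]
          push_cast
          rfl
        rw [h3] at h2
        rw [← h1] at h2
        linear_combination h2
      obtain ⟨A1, hA1⟩ := D3_sum hM g
      obtain ⟨A2, hA2⟩ := D3_sum hM a
      obtain ⟨A3, hA3⟩ := deg_nonneg X hM (w n₀) p0 l0 hSp0
      obtain ⟨A4, hA4⟩ := deg_pos X hM (ptMap i u) p1 l1 hSp1 r s
        (by
          change i (u.z (Sum.inl r)) ≠ 0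
          exact (map_ne_zero i).2 hr)
        (by
          change Transcendental k (i (u.z (Sum.inl s)) / i (u.z (Sum.inl r)))
          rw [← map_div₀]
          exact D3_transc i hs)
      obtain ⟨A, hA⟩ : ∃ A : Finset (Place k M), A = A1 ∪ A2 ∪ A3 ∪ A4 := ⟨_, rfl⟩
      have s1 := hA1 A (by
        rw [hA]
        intro v hv
        simp [hv])
      have s2 := hA2 A (by
        rw [hA]
        intro v hv
        simp [hv])
      have s3 := hA3 A (by
        rw [hA]
        intro v hv
        simp [hv])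
      have s4 := hA4 A (by
        rw [hA]
        intro v hv
        simp [hv])
      have hsum : ∑ v ∈ A, ((N : ℤ) * v.ord g + v.ord a + v.ord (l1 v) +
          ((N : ℤ) - 1) * v.ord (l0 v)) = 0 := Finset.sum_eq_zero fun v _ => key v
      rw [Finset.sum_add_distrib, Finset.sum_add_distrib, Finset.sum_add_distrib, ← Finset.mul_sum,
        ← Finset.mul_sum, s1, s2] at hsum
      have hN' : (0 : ℤ) ≤ (N : ℤ) - 1 := by
        have : (3 : ℤ) ≤ (N : ℤ) := by exact_mod_cast hN
        linarith
      have h5 := mul_nonneg hN' s3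
      linarith

end Pool.Agent.LibPN22
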